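import Pool.Agent.H44.Tri.Near

/-!
# Counting grid points near chords
-/

set_option autoImplicit false

namespace Pool.Agent.H44.Tri

open Pool.H47.Tri Real

theorem card_int_le {S : Finset ℤ} {a len : ℝ} (hl : 0 ≤ len)
    (h : ∀ v ∈ S, a ≤ (v : ℝ) ∧ (v : ℝ) ≤ a + len) : (S.card : ℝ) ≤ len + 1 := by
  have hsub : S ⊆ Finset.Icc ⌈a⌉ ⌊a + len⌋ := by
    intro v hv
    obtain ⟨h1, h2⟩ := h v hv
    exact Finset.mem_Icc.2 ⟨Int.ceil_le.2 h1, Int.le_floor.2 h2⟩
  have h1 := Finset.card_le_card hsub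
  rw [Int.card_Icc] at h1
  have h2 : (S.card : ℝ) ≤ ((⌊a + len⌋ + 1 - ⌈a⌉).toNat : ℝ) := by exact_mod_cast h1
  refine h2.trans ?_
  rcases le_total 0 (⌊a + len⌋ + 1 - ⌈a⌉) with h3 | h3
  · have h4 : (((⌊a + len⌋ + 1 - ⌈a⌉).toNat : ℤ) : ℝ) = ((⌊a + len⌋ + 1 - ⌈a⌉ : ℤ) : ℝ) := by
      rw [Int.toNat_of_nonneg h3]
    have h5 : (((⌊a + len⌋ + 1 - ⌈a⌉).toNat : ℕ) : ℝ) = ((⌊a + len⌋ + 1 - ⌈a⌉ : ℤ) : ℝ) := by
      rw [← h4]; push_cast; rfl
    rw [h5]
    push_cast
    have h6 := Int.floor_le (a + len)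
    have h7 := Int.le_ceil a
    linarith
  · rw [Int.toNat_of_nonpos h3]
    push_cast
    linarith

/-- `|b v - w| ≤ 1` with `b ≥ 9/10` has at most three integer solutions -/
theorem card_fiber {S : Finset ℤ} {b w : ℝ} (hb : 9 / 10 ≤ b)
    (h : ∀ v ∈ S, |b * (v : ℝ) - w| ≤ 1) : S.card ≤ 3 := by
  have hb0 : 0 < b := by linarith
  have h1 := card_int_le (S := S) (a := (w - 1) / b) (len := 2 / b) (by positivity) (by
    intro v hv
    have h2 := abs_le.1 (h v hv)
    constructor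
    · rw [div_le_iff₀ hb0]; linarith
    · rw [← add_div, le_div_iff₀ hb0]; linarith)
  have h2 : 2 / b ≤ 20 / 9 := by
    rw [div_le_div_iff₀ hb0 (by norm_num)]; linarith
  have h3 : (S.card : ℝ) < 4 := by linarith
  have h4 : S.card < 4 := by exact_mod_cast h3
  omega

theorem Near_iff {n U : ℕ} (hU : 0 < U) {e : ℕ × ℕ} {x : ℤ × ℤ} :
    Near n U e x ↔ |(x.1 : ℝ) * cos (mm n e) + x.2 * sin (mm n e) - 2 * U * cos (ph n e)| ≤ 1 := by
  have hU' : (0 : ℝ) < U := by exact_mod_cast hU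
  unfold Near
  have h1 : Le n e (pt U x) =
      ((x.1 : ℝ) * cos (mm n e) + x.2 * sin (mm n e) - 2 * U * cos (ph n e)) / (2 * U) := by
    rw [Le_eq]; unfold pt; field_simp
  rw [h1, abs_div, abs_of_pos (by positivity : (0 : ℝ) < 2 * U),
    div_le_div_iff_of_pos_right (by positivity)]

open Classical in
/-- grid points near a chord -/
noncomputable def nearPts (n U : ℕ) (e : ℕ × ℕ) : Finset (ℤ × ℤ) := (grid U).filter (Near n U e)

open Classical in
theorem count1 {n q U : ℕ} (hn : 200 ≤ n) (hq : 16 * q ≤ n) (hU : 0 < U) {e : ℕ × ℕ}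
    (he1 : e.1 ≤ q) (he2 : e.2 ≤ q) : (nearPts n U e).card ≤ 9 * U := by
  have h1 : (nearPts n U e).card ≤ 3 * ((nearPts n U e).image Prod.fst).card := by
    apply Finset.card_le_mul_card_image
    intro u hu
    have hinj : Set.InjOn Prod.snd (((nearPts n U e).filter (fun x => x.1 = u) : Finset (ℤ × ℤ)) : Set (ℤ × ℤ)) := by
      intro x hx y hy hxy
      simp only [Finset.coe_filter, Set.mem_ofPred_eq] at hx hy
      exact Prod.ext (hx.2.trans hy.2.symm) hxy
    rw [← Finset.card_image_of_injOn hinj]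
    apply card_fiber (sin_mm hn hq he1 he2) (w := 2 * U * cos (ph n e) - u * cos (mm n e))
    intro v hv
    rw [Finset.mem_image] at hv
    obtain ⟨x, hx, rfl⟩ := hv
    rw [Finset.mem_filter] at hx
    obtain ⟨hx, rfl⟩ := hx
    have := (Near_iff hU).1 (Finset.mem_filter.1 hx).2
    convert this using 2
    ring
  have h2 : ((nearPts n U e).image Prod.fst).card ≤ 2 * U + 1 := by
    have hsub : (nearPts n U e).image Prod.fst ⊆ Finset.Icc (-(U : ℤ)) U := by
      intro u hu
      rw [Finset.mem_image] at hu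
      obtain ⟨x, hx, rfl⟩ := hu
      have := (Finset.mem_filter.1 hx).1
      simp only [grid, Finset.mem_product] at this
      exact this.1
    have := Finset.card_le_card hsub
    rw [Int.card_Icc] at this
    omega
  omega

open Classical in
theorem count_low {n q U : ℕ} (hn : 200 ≤ n) (hq : 16 * q ≤ n) (hU : 7 ≤ U) {e : ℕ × ℕ}
    (he1 : e.1 ≤ q) (he2 : e.2 ≤ q) : 2 * U ≤ (nearPts n U e).card := by
  have hU' : (7 : ℝ) ≤ U := by exact_mod_cast hU
  have hs := sin_mm hn hq he1 he2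
  have hc := abs_le.1 (cos_mm hn hq he1 he2)
  have hp := abs_le.1 (cos_ph hn hq he1 he2)
  have hs0 : 0 < sin (mm n e) := by linarith
  have h1 : (Finset.Icc (-(U : ℤ)) U).card ≤ (nearPts n U e).card := by
    apply Finset.card_le_card_of_injOn
      (fun u : ℤ => ((u, round ((2 * U * cos (ph n e) - u * cos (mm n e)) / sin (mm n e))) : ℤ × ℤ))
    · intro u hu
      rw [Finset.mem_coe, Finset.mem_Icc] at hu
      have hu1 : -(U : ℝ) ≤ u := by exact_mod_cast hu.1
      have hu2 : (u : ℝ) ≤ U := by exact_mod_cast hu.2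
      obtain ⟨w, hw⟩ : ∃ w, w = (2 * U * cos (ph n e) - u * cos (mm n e)) / sin (mm n e) := ⟨_, rfl⟩
      have hws : w * sin (mm n e) = 2 * U * cos (ph n e) - u * cos (mm n e) := by
        rw [hw]; field_simp
      have hr := abs_le.1 (abs_sub_round w)
      -- bound for w
      have hub : |(u : ℝ) * cos (mm n e)| ≤ 2 / 5 * U := by
        rw [abs_mul]
        have a1 : |(u : ℝ)| ≤ U := abs_le.2 ⟨hu1, hu2⟩
        have a2 := cos_mm hn hq he1 he2
        have := mul_le_mul a1 a2 (abs_nonneg _) (by linarith)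
        linarith
      have hub' := abs_le.1 hub
      have hcb : |2 * (U : ℝ) * cos (ph n e)| ≤ 42 / 100 * U := by
        rw [abs_mul, abs_of_pos (by linarith : (0 : ℝ) < 2 * U)]
        have a2 := cos_ph hn hq he1 he2
        have := mul_le_mul_of_nonneg_left a2 (by linarith : (0 : ℝ) ≤ 2 * U)
        linarith
      have hcb' := abs_le.1 hcb
      have hw1 : w ≤ 92 / 100 * U := by
        have : w * sin (mm n e) ≤ 92 / 100 * U * sin (mm n e) := by
          rw [hws]; nlinarith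
        exact le_of_mul_le_mul_right this hs0
      have hw2 : -(92 / 100 * U) ≤ w := by
        have : -(92 / 100 * U) * sin (mm n e) ≤ w * sin (mm n e) := by
          rw [hws]; nlinarith
        exact le_of_mul_le_mul_right this hs0
      have hround : ((round w : ℤ) : ℝ) ≤ 92 / 100 * U + 1 / 2 := by linarith
      have hround' : -(92 / 100 * U + 1 / 2) ≤ ((round w : ℤ) : ℝ) := by linarith
      rw [Finset.mem_coe, nearPts, Finset.mem_filter]
      refine ⟨?_, ?_⟩
      · simp only [grid, Finset.mem_product, Finset.mem_Icc]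
        refine ⟨hu, ?_, ?_⟩
        · rw [← hw]
          have : (-(U : ℝ)) ≤ ((round w : ℤ) : ℝ) := by linarith
          exact_mod_cast this
        · rw [← hw]
          have : ((round w : ℤ) : ℝ) ≤ U := by linarith
          exact_mod_cast this
      · rw [Near_iff (by omega)]
        simp only
        rw [← hw]
        have e1 : (u : ℝ) * cos (mm n e) + ((round w : ℤ) : ℝ) * sin (mm n e) - 2 * U * cos (ph n e) =
            -((w - round w) * sin (mm n e)) := by
          have := hws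
          linarith
        rw [e1, abs_neg, abs_mul]
        have a1 : |w - round w| ≤ 1 / 2 := abs_sub_round w
        have a2 : |sin (mm n e)| ≤ 1 := abs_sin_le_one _
        have := mul_le_mul a1 a2 (abs_nonneg _) (by norm_num)
        linarith
    · intro u _ v _ huv
      simp only [Prod.mk.injEq] at huv
      exact huv.1
  rw [Int.card_Icc] at h1
  omega

open Classical in
theorem count2 {n q U : ℕ} (hn : 200 ≤ n) (hq : 16 * q ≤ n) (hU : 0 < U) {e f : ℕ × ℕ}
    (he1 : e.1 ≤ q) (he2 : e.2 ≤ q) (hf1 : f.1 ≤ q) (hf2 : f.2 ≤ q) (hd : dir e ≠ dir f) :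
    ((((grid U).filter (fun x => Near n U e x ∧ Near n U f x)).card : ℕ) : ℝ) ≤
      9 * n / |(dir f : ℝ) - dir e| := by
  have hn0 : 0 < n := by omega
  have hn' : (0 : ℝ) < n := by exact_mod_cast hn0
  have hq' : 16 * (q : ℝ) ≤ n := by exact_mod_cast hq
  obtain ⟨S, hS⟩ : ∃ S, S = (grid U).filter (fun x => Near n U e x ∧ Near n U f x) := ⟨_, rfl⟩
  rw [← hS]
  have h1 : S.card ≤ 3 * (S.image Prod.fst).card := by
    apply Finset.card_le_mul_card_image
    intro u hu
    have hinj : Set.InjOn Prod.snd ((S.filter (fun x => x.1 = u) : Finset (ℤ × ℤ)) : Set (ℤ × ℤ)) := by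
      intro x hx y hy hxy
      simp only [Finset.coe_filter, Set.mem_ofPred_eq] at hx hy
      exact Prod.ext (hx.2.trans hy.2.symm) hxy
    rw [← Finset.card_image_of_injOn hinj]
    apply card_fiber (sin_mm hn hq he1 he2) (w := 2 * U * cos (ph n e) - u * cos (mm n e))
    intro v hv
    rw [Finset.mem_image] at hv
    obtain ⟨x, hx, rfl⟩ := hv
    rw [Finset.mem_filter] at hx
    obtain ⟨hx, rfl⟩ := hx
    rw [hS, Finset.mem_filter] at hx
    have := (Near_iff hU).1 hx.2.1
    convert this using 2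
    ring
  -- the absolute value of the direction difference
  obtain ⟨h, hh⟩ : ∃ h, h = |(dir f : ℝ) - dir e| := ⟨_, rfl⟩
  have hh1 : 1 ≤ h := by
    rw [hh]
    have : (1 : ℤ) ≤ |dir f - dir e| := Int.one_le_abs (sub_ne_zero.2 hd.symm)
    have h2 : ((1 : ℤ) : ℝ) ≤ ((|dir f - dir e| : ℤ) : ℝ) := by exact_mod_cast this
    push_cast at h2
    exact h2
  have hh2 : h ≤ n := by
    rw [hh]
    have a1 : (e.1 : ℝ) ≤ q := by exact_mod_cast he1
    have a2 : (e.2 : ℝ) ≤ q := by exact_mod_cast he2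
    have a3 : (f.1 : ℝ) ≤ q := by exact_mod_cast hf1
    have a4 : (f.2 : ℝ) ≤ q := by exact_mod_cast hf2
    have b1 : (0 : ℝ) ≤ e.1 := by positivity
    have b2 : (0 : ℝ) ≤ e.2 := by positivity
    have b3 : (0 : ℝ) ≤ f.1 := by positivity
    have b4 : (0 : ℝ) ≤ f.2 := by positivity
    unfold dir
    push_cast
    rw [abs_le]
    constructor <;> linarith
  obtain ⟨D, hD⟩ : ∃ D, D = cos (mm n e) * sin (mm n f) - cos (mm n f) * sin (mm n e) := ⟨_, rfl⟩
  have hDge : 2 * h / n ≤ |D| := by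
    rw [hD, hh]; exact abs_det_ge hn hq he1 he2 hf1 hf2
  have hDpos : 0 < |D| := lt_of_lt_of_le (by positivity) hDge
  have hD0 : D ≠ 0 := abs_pos.1 hDpos
  obtain ⟨w, hw⟩ : ∃ w, w = 2 * U * cos (ph n e) * sin (mm n f) - 2 * U * cos (ph n f) * sin (mm n e) :=
    ⟨_, rfl⟩
  have h2 : ((S.image Prod.fst).card : ℝ) ≤ 4 / |D| + 1 := by
    apply card_int_le (a := w / D - 2 / |D|) (by positivity)
    intro u hu
    rw [Finset.mem_image] at hu
    obtain ⟨x, hx, rfl⟩ := hu
    rw [hS, Finset.mem_filter] at hx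
    have n1 := abs_le.1 ((Near_iff hU).1 hx.2.1)
    have n2 := abs_le.1 ((Near_iff hU).1 hx.2.2)
    have s1 := sin_mm hn hq he1 he2
    have s2 := sin_mm hn hq hf1 hf2
    have t1 := sin_le_one (mm n e)
    have t2 := sin_le_one (mm n f)
    obtain ⟨E1, hE1⟩ : ∃ E1, E1 = (x.1 : ℝ) * cos (mm n e) + x.2 * sin (mm n e) - 2 * U * cos (ph n e) := ⟨_, rfl⟩
    obtain ⟨E2, hE2⟩ : ∃ E2, E2 = (x.1 : ℝ) * cos (mm n f) + x.2 * sin (mm n f) - 2 * U * cos (ph n f) := ⟨_, rfl⟩
    rw [← hE1] at n1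
    rw [← hE2] at n2
    have e1 : D * x.1 - w = sin (mm n f) * E1 - sin (mm n e) * E2 := by
      rw [hD, hw, hE1, hE2]; ring
    have e2 : |D * x.1 - w| ≤ 2 := by
      rw [e1, abs_le]
      constructor <;> nlinarith
    have e3 : |(x.1 : ℝ) - w / D| ≤ 2 / |D| := by
      rw [le_div_iff₀ hDpos, ← abs_mul]
      have : ((x.1 : ℝ) - w / D) * D = D * x.1 - w := by field_simp
      rw [this]; exact e2
    have e4 := abs_le.1 e3
    have e5 : (4 : ℝ) / |D| = 2 / |D| + 2 / |D| := by ring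
    constructor
    · linarith [e4.1]
    · rw [e5]; linarith [e4.2]
  have h3 : 4 / |D| ≤ 2 * n / h := by
    rw [div_le_div_iff₀ hDpos (by linarith)]
    have : 2 * h ≤ |D| * n := by rwa [div_le_iff₀ hn'] at hDge
    nlinarith
  have h4 : 1 ≤ n / h := by rw [le_div_iff₀ (by linarith)]; linarith
  have h5 : (S.card : ℝ) ≤ 3 * ((S.image Prod.fst).card : ℝ) := by exact_mod_cast h1
  rw [← hh]
  have h6 : 2 * (n : ℝ) / h = 2 * (n / h) := by ring
  have h7 : 9 * (n : ℝ) / h = 9 * (n / h) := by ring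
  rw [h6] at h3
  rw [h7]
  linarith

end Pool.Agent.H44.Tri
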