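import Pool.Agent.H44.Tri.Main

/-!
# Assembly: the number of triangular faces of the regular drawing is of order `n ^ 4`
-/

set_option autoImplicit false

namespace Pool.Agent.H44.Tri

open Pool.H47.Tri Real

open Classical in
theorem large_gen {n B M r W : ℕ} (hB : B = 24000) (hM : M = 7300 * B) (hW : W = 17 * B * (2 * M + 1))
    (hr : r = n / (16 * B)) (hr0 : 250000 ≤ r) {T : ℕ} (hT : numTri (regularPolygon n) = (T : ℕ∞)) :
    (n : ℝ) ^ 4 ≤ 17 ^ 4 * (B : ℝ) ^ 2 * (1228 * ((4 * W + 1 : ℕ) : ℝ) ^ 2 * T) := by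
  obtain ⟨q, hq⟩ : ∃ q, q = B * r := ⟨_, rfl⟩
  obtain ⟨U, hU⟩ : ∃ U, U = B * r ^ 2 := ⟨_, rfl⟩
  have hBpos : 0 < B := by omega
  have h16 : 0 < 16 * B := by omega
  -- comparison of n and q
  have n1 : 16 * (B * r) ≤ n := by
    have := Nat.div_mul_le_self n (16 * B)
    rw [← hr] at this
    calc 16 * (B * r) = r * (16 * B) := by ring
      _ ≤ n := this
  have n2 : n < 16 * (B * r) + 16 * B := by
    have := Nat.lt_div_mul_add (a := n) h16
    rw [← hr] at this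
    calc n < r * (16 * B) + 16 * B := this
      _ = 16 * (B * r) + 16 * B := by ring
  have n3 : n ≤ 17 * (B * r) := by
    have : 16 * B ≤ B * r := by
      rw [mul_comm 16 B]; exact Nat.mul_le_mul_left _ (by omega)
    omega
  have hq200 : 200 ≤ B * r := by
    calc 200 ≤ 1 * 250000 := by norm_num
      _ ≤ B * r := Nat.mul_le_mul (by omega) hr0
  have n4 : 200 ≤ n := by omega
  have hU1 : U = (B * r) * r := by rw [hU]; ring
  have n5 : 5 * n < 2 * (B * r ^ 2) := by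
    rw [← hU, hU1]
    have h1 : 5 * n ≤ 85 * (B * r) := by omega
    have h2 : 86 * (B * r) ≤ 2 * ((B * r) * r) := by
      calc 86 * (B * r) = (B * r) * 86 := by ring
        _ ≤ (B * r) * (2 * r) := Nat.mul_le_mul_left _ (by omega)
        _ = 2 * ((B * r) * r) := by ring
    omega
  have n6 : 7 ≤ B * r ^ 2 := by omega
  have hgood := many_good (n := n) (B := B) (r := r) (by omega) n4 n1 n3 n5 n6
  rw [← hU, ← hq] at hgood
  rw [← hq] at n1 n3
  rw [← hU] at n5 n6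
  obtain ⟨Gd, hGd⟩ : ∃ Gd, Gd = (grid U).filter (Good n U q (2 * r)) := ⟨_, rfl⟩
  rw [← hGd] at hgood
  obtain ⟨K, hK⟩ : ∃ K, K = 17 * B := ⟨_, rfl⟩
  -- rich points
  obtain ⟨rich, hrich⟩ : ∃ rich : ℤ × ℤ → Prop, rich = fun x => ∃ y ∈ Gd, |x.1 - y.1| ≤ M ∧
      |x.2 - y.2| ≤ M ∧ (2 * (K : ℤ) < |x.1 - y.1| ∨ 2 * (K : ℤ) < |x.2 - y.2|) := ⟨_, rfl⟩
  have hMpos : 0 < M := by omega
  have hsp : (Gd.filter (fun x => ¬ rich x)).card ≤ (2 * (2 * K) + 1) ^ 2 * (2 * (U / M) + 2) ^ 2 := by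
    apply sparse_card hMpos
    · intro x hx
      rw [Finset.mem_filter, hGd, Finset.mem_filter] at hx
      exact hx.1.1
    · intro x hx y hy d1 d2
      rw [Finset.mem_filter] at hx hy
      have hnr := hx.2
      rw [hrich] at hnr
      push Not at hnr
      have := hnr y hy.1 d1 d2
      push_cast
      exact this
  have hsplit : (Gd.filter rich).card + (Gd.filter (fun x => ¬ rich x)).card = Gd.card :=
    Finset.card_filter_add_card_filter_not rich
  -- real estimates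
  have hBr : (B : ℝ) = 24000 := by rw [hB]; norm_num
  have hMr : (M : ℝ) = 7300 * B := by rw [hM]; push_cast; ring
  have hKr : (K : ℝ) = 17 * B := by rw [hK]; push_cast; ring
  have hrr : (250000 : ℝ) ≤ r := by exact_mod_cast hr0
  have hUr : (U : ℝ) = B * (r : ℝ) ^ 2 := by rw [hU]; push_cast; ring
  have hMr0 : (0 : ℝ) < M := by exact_mod_cast hMpos
  have hU2M : 2 * (M : ℝ) ≤ U := by
    rw [hMr, hUr, hBr]; nlinarith
  have hdiv : ((U / M : ℕ) : ℝ) ≤ U / M := Nat.cast_div_le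
  have hNR : ((Gd.filter (fun x => ¬ rich x)).card : ℝ) ≤ (U : ℝ) ^ 2 / 1228 := by
    have h1 : ((Gd.filter (fun x => ¬ rich x)).card : ℝ) ≤
        (2 * (2 * (K : ℝ)) + 1) ^ 2 * (2 * ((U / M : ℕ) : ℝ) + 2) ^ 2 := by exact_mod_cast hsp
    have h2 : 2 * ((U / M : ℕ) : ℝ) + 2 ≤ 3 * (U / M) := by
      have : 2 ≤ (U : ℝ) / M := by rw [le_div_iff₀ hMr0]; exact hU2M
      linarith
    have h3 : 2 * (2 * (K : ℝ)) + 1 ≤ 69 * B := by rw [hKr, hBr]; norm_num
    have h4 : (2 * (2 * (K : ℝ)) + 1) ^ 2 ≤ (69 * B) ^ 2 := pow_le_pow_left₀ (by positivity) h3 2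
    have h5 : (2 * ((U / M : ℕ) : ℝ) + 2) ^ 2 ≤ (3 * (U / M)) ^ 2 :=
      pow_le_pow_left₀ (by positivity) h2 2
    calc ((Gd.filter (fun x => ¬ rich x)).card : ℝ) ≤
        (2 * (2 * (K : ℝ)) + 1) ^ 2 * (2 * ((U / M : ℕ) : ℝ) + 2) ^ 2 := h1
      _ ≤ (69 * B) ^ 2 * (3 * (U / M)) ^ 2 := mul_le_mul h4 h5 (by positivity) (by positivity)
      _ = (69 * 3 / 7300) ^ 2 * (U : ℝ) ^ 2 := by
        have : (M : ℝ) ≠ 0 := hMr0.ne'
        have hB0 : (B : ℝ) ≠ 0 := by rw [hBr]; norm_num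
        rw [hMr]
        field_simp
      _ ≤ (U : ℝ) ^ 2 / 1228 := by
        have : 0 ≤ (U : ℝ) ^ 2 := by positivity
        nlinarith
  have hRich : (U : ℝ) ^ 2 ≤ 1228 * ((Gd.filter rich).card : ℝ) := by
    have h1 : ((Gd.filter rich).card : ℝ) + ((Gd.filter (fun x => ¬ rich x)).card : ℝ) =
        (Gd.card : ℝ) := by exact_mod_cast hsplit
    linarith
  -- faces
  have hnr : (n : ℝ) ≤ 17 * (B * r) := by
    rw [hq] at n3
    exact_mod_cast n3
  have hr1 : (0 : ℝ) < r := by linarith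
  have hface : ∀ x ∈ Gd.filter rich, ∃ F ∈ triFaces (regularPolygon n), F.Nonempty ∧ F ⊆ box U W x := by
    intro x hx
    rw [Finset.mem_filter] at hx
    obtain ⟨hx1, hx2⟩ := hx
    rw [hrich] at hx2
    obtain ⟨y, hy, d1, d2, far⟩ := hx2
    rw [hGd, Finset.mem_filter] at hx1 hy
    have hnr2 : (n : ℝ) / r ≤ 17 * B := by
      rw [div_le_iff₀ hr1]; linarith
    refine face_of_two (K := K) (M := M) (r := r) n4 n1 (by omega) (by omega) ?_ ?_ ?_ hx1.1 hx1.2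
      hy.2 d1 d2 far
    · rw [hKr]; exact hnr2
    · have h1 : (2 * (M : ℝ) + 1) * n / r = (2 * M + 1) * (n / r) := by ring
      rw [h1, hW]
      push_cast
      have h2 : (0 : ℝ) ≤ 2 * M + 1 := by positivity
      calc (2 * (M : ℝ) + 1) * (n / r) ≤ (2 * M + 1) * (17 * B) :=
            mul_le_mul_of_nonneg_left hnr2 h2
        _ = 17 * B * (2 * M + 1) := by ring
    · have h1 : 10 * (W : ℝ) ≤ U := by
        rw [hW, hUr]
        push_cast
        rw [hMr, hBr]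
        nlinarith
      exact_mod_cast h1
  choose! Φ hΦ using hface
  have hcard : (Gd.filter rich).card ≤ (4 * W + 1) ^ 2 * ((Gd.filter rich).image Φ).card := by
    apply Finset.card_le_mul_card_image
    intro F hF
    rcases ((Gd.filter rich).filter (fun x => Φ x = F)).eq_empty_or_nonempty with hemp | ⟨x0, hx0⟩
    · rw [hemp]; simp
    rw [Finset.mem_filter] at hx0
    have hs : (Gd.filter rich).filter (fun x => Φ x = F) ⊆
        Finset.Icc (x0.1 - 2 * (W : ℤ)) (x0.1 + 2 * W) ×ˢ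
          Finset.Icc (x0.2 - 2 * (W : ℤ)) (x0.2 + 2 * W) := by
      intro x hx
      rw [Finset.mem_filter] at hx
      obtain ⟨-, hne, hb⟩ := hΦ x hx.1
      obtain ⟨-, -, hb0⟩ := hΦ x0 hx0.1
      rw [hx.2] at hne hb
      rw [hx0.2] at hb0
      obtain ⟨y, hy⟩ := hne
      obtain ⟨y1, y2⟩ := hb hy
      obtain ⟨z1, z2⟩ := hb0 hy
      rw [abs_le] at y1 y2 z1 z2
      have key : ∀ s t : ℤ, ∀ w : ℝ, w - s ≤ W → -(W : ℝ) ≤ w - s → w - t ≤ W → -(W : ℝ) ≤ w - t →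
          t - 2 * (W : ℤ) ≤ s ∧ s ≤ t + 2 * (W : ℤ) := by
        intro s t w a1 a2 a3 a4
        constructor
        · have : (t : ℝ) - 2 * (W : ℝ) ≤ s := by linarith
          exact_mod_cast this
        · have : (s : ℝ) ≤ t + 2 * (W : ℝ) := by linarith
          exact_mod_cast this
      rw [Finset.mem_product, Finset.mem_Icc, Finset.mem_Icc]
      exact ⟨key _ _ _ y1.2 y1.1 z1.2 z1.1, key _ _ _ y2.2 y2.1 z2.2 z2.1⟩
    refine (Finset.card_le_card hs).trans ?_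
    rw [Finset.card_product, Int.card_Icc, Int.card_Icc]
    have e1 : (x0.1 + 2 * (W : ℤ) + 1 - (x0.1 - 2 * (W : ℤ))).toNat = 4 * W + 1 := by omega
    have e2 : (x0.2 + 2 * (W : ℤ) + 1 - (x0.2 - 2 * (W : ℤ))).toNat = 4 * W + 1 := by omega
    rw [e1, e2, sq]
  have himg : ((Gd.filter rich).image Φ).card ≤ T := by
    have h1 : ((((Gd.filter rich).image Φ : Finset (Set Pt)) : Set (Set Pt))).encard ≤
        (triFaces (regularPolygon n)).encard := by
      apply Set.encard_le_encard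
      intro F hF
      rw [Finset.mem_coe, Finset.mem_image] at hF
      obtain ⟨x, hx, rfl⟩ := hF
      exact (hΦ x hx).1
    rw [Set.encard_coe_eq_coe_finsetCard] at h1
    have h2 : (triFaces (regularPolygon n)).encard = (T : ℕ∞) := hT
    rw [h2] at h1
    exact_mod_cast h1
  have hfin : ((Gd.filter rich).card : ℝ) ≤ ((4 * W + 1 : ℕ) : ℝ) ^ 2 * T := by
    have h1 : (Gd.filter rich).card ≤ (4 * W + 1) ^ 2 * T :=
      hcard.trans (Nat.mul_le_mul_left _ himg)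
    have h2 : ((Gd.filter rich).card : ℝ) ≤ (((4 * W + 1) ^ 2 * T : ℕ) : ℝ) := by exact_mod_cast h1
    rw [Nat.cast_mul, Nat.cast_pow] at h2
    exact h2
  have hU2 : (U : ℝ) ^ 2 ≤ 1228 * ((4 * W + 1 : ℕ) : ℝ) ^ 2 * T := by
    refine hRich.trans ?_
    have := mul_le_mul_of_nonneg_left hfin (by norm_num : (0 : ℝ) ≤ 1228)
    linarith
  have hn4 : (n : ℝ) ^ 4 ≤ 17 ^ 4 * (B : ℝ) ^ 2 * (U : ℝ) ^ 2 := by
    calc (n : ℝ) ^ 4 ≤ (17 * (B * r)) ^ 4 := pow_le_pow_left₀ (by positivity) hnr 4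
      _ = 17 ^ 4 * (B : ℝ) ^ 2 * (U : ℝ) ^ 2 := by rw [hUr]; ring
  refine hn4.trans ?_
  exact mul_le_mul_of_nonneg_left hU2 (by positivity)

/-- the upper bound `n ^ 4` -/
theorem upper_ccw {n : ℕ} (hn : 3 ≤ n) {P : Fin n → Pt} (hP : Ccw P) :
    ∃ T : ℕ, numTri P = (T : ℕ∞) ∧ T ≤ n ^ 4 := by
  classical
  obtain ⟨R, hR⟩ := exists_reps P
  obtain ⟨Vc, hV⟩ := Pool.H47.Tri.exists_cross hn hP
  have h2 := B2.corners_le hn hP hR hV
  refine ⟨triCount P R, numTri_eq hn hP hR, ?_⟩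
  have h3 : triCount P R ≤ R.card := Finset.card_filter_le _ _
  have h4 : 3 * R.card ≤ ∑ x ∈ R, (corners P x).ncard := by
    have := Finset.card_nsmul_le_sum R (fun x => (corners P x).ncard) 3
      (fun x hx => (three_corners hn hP (hR.off x hx)).1)
    rw [smul_eq_mul] at this
    linarith
  -- sum of multiplicities
  have h5 : ∑ p ∈ Vc, (lns P p).card ≤ ∑ p ∈ Vc, (lns P p).offDiag.card := by
    apply Finset.sum_le_sum
    intro p hp
    have h2 := two_le_lns ((hV p).1 hp)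
    rw [Finset.offDiag_card]
    have : (lns P p).card * 2 ≤ (lns P p).card * (lns P p).card := Nat.mul_le_mul_left _ h2
    omega
  have h6 : ∑ p ∈ Vc, (lns P p).offDiag.card = (Vc.biUnion (fun p => (lns P p).offDiag)).card := by
    rw [Finset.card_biUnion]
    intro p hp p' hp' hne
    rw [Function.onFun, Finset.disjoint_left]
    rintro ⟨e, f⟩ h1 h2
    rw [Finset.mem_offDiag] at h1 h2
    unfold lns at h1 h2
    simp only [Finset.mem_filter, Finset.mem_univ, true_and] at h1 h2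
    apply hne
    exact eq_of_two_lines hn hP h1.1.1 h1.2.1.1 h1.2.2 h1.1.2 h1.2.1.2 h2.1.2 h2.2.1.2
  have h7 : (Vc.biUnion (fun p => (lns P p).offDiag)).card ≤ n ^ 4 := by
    refine (Finset.card_le_univ _).trans ?_
    rw [Fintype.card_prod, Fintype.card_prod, Fintype.card_fin]
    apply le_of_eq; ring
  have h8 : ∑ p ∈ Vc, 2 * (lns P p).card = 2 * ∑ p ∈ Vc, (lns P p).card := by
    rw [Finset.mul_sum]
  have h9 : n * (n - 2) ≤ n ^ 4 := by
    calc n * (n - 2) ≤ n * n := Nat.mul_le_mul_left _ (by omega)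
      _ = n ^ 2 := by ring
      _ ≤ n ^ 4 := Nat.pow_le_pow_right (by omega) (by norm_num)
  rw [h8] at h2
  omega

/-- **The regular drawing has `Θ(n ^ 4)` triangular faces.** -/
theorem regular_order : ∃ c : ℝ, 0 < c ∧ ∀ n : ℕ, 3 ≤ n → ∃ t : ℕ,
    numTri (regularPolygon n) = (t : ℕ∞) ∧ c * (n : ℝ) ^ 4 ≤ t ∧ t ≤ n ^ 4 := by
  obtain ⟨B, hB⟩ : ∃ B : ℕ, B = 24000 := ⟨_, rfl⟩
  obtain ⟨M, hM⟩ : ∃ M : ℕ, M = 7300 * B := ⟨_, rfl⟩
  obtain ⟨W, hW⟩ : ∃ W : ℕ, W = 17 * B * (2 * M + 1) := ⟨_, rfl⟩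
  obtain ⟨C1, hC1⟩ : ∃ C1 : ℝ, C1 = 17 ^ 4 * (B : ℝ) ^ 2 * (1228 * ((4 * W + 1 : ℕ) : ℝ) ^ 2) :=
    ⟨_, rfl⟩
  obtain ⟨C2, hC2⟩ : ∃ C2 : ℝ, C2 = ((250000 * (16 * B) : ℕ) : ℝ) ^ 4 := ⟨_, rfl⟩
  have hC1pos : 0 ≤ C1 := by rw [hC1]; positivity
  have hC2pos : 0 < C2 := by
    rw [hC2]
    have : 0 < 250000 * (16 * B) := by omega
    have : (0 : ℝ) < ((250000 * (16 * B) : ℕ) : ℝ) := by exact_mod_cast this
    positivity
  refine ⟨1 / (C1 + C2), by positivity, fun n hn => ?_⟩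
  obtain ⟨t, ht, ht4⟩ := upper_ccw hn (ccw_reg n)
  refine ⟨t, ht, ?_, ht4⟩
  rw [one_div, ← div_eq_inv_mul, div_le_iff₀ (by positivity)]
  have ht0 : (0 : ℝ) ≤ t := by positivity
  by_cases hlarge : 250000 ≤ n / (16 * B)
  · have := large_gen hB hM hW rfl hlarge ht
    have h2 : 17 ^ 4 * (B : ℝ) ^ 2 * (1228 * ((4 * W + 1 : ℕ) : ℝ) ^ 2 * t) = t * C1 := by
      rw [hC1]; ring
    rw [h2] at this
    have h3 : 0 ≤ (t : ℝ) * C2 := by positivity
    rw [mul_add]; linarith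
  · obtain ⟨T, K, h1, h2, -, -⟩ := lower_ccw hn (ccw_reg n)
    have hTt : T = t := by
      rw [ht] at h1
      exact_mod_cast h1.symm
    have h3 : 1 ≤ t := by
      rw [← hTt]
      have : 1 ≤ (n - 2) ^ 2 := Nat.one_le_pow _ _ (by omega)
      omega
    have h4 : n ≤ 250000 * (16 * B) := by
      have h16 : 0 < 16 * B := by omega
      rw [not_le, Nat.div_lt_iff_lt_mul h16] at hlarge
      exact hlarge.le
    have h5 : (n : ℝ) ^ 4 ≤ C2 := by
      rw [hC2]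
      exact pow_le_pow_left₀ (by positivity) (by exact_mod_cast h4) 4
    have h6 : (1 : ℝ) ≤ t := by exact_mod_cast h3
    have h7 : C2 ≤ t * C2 := le_mul_of_one_le_left hC2pos.le h6
    have h8 : 0 ≤ (t : ℝ) * C1 := by positivity
    rw [mul_add]; linarith

end Pool.Agent.H44.Tri
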