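import Pool.Agent.H47.Tri.Lower
import Pool.Agent.H58.Tri.Hull

/-!
# A nondegenerate triangle formed by three chords contains a triangular face
-/

set_option autoImplicit false

namespace Pool.Agent.H44.Tri

open Pool.H47.Tri

/-- the open triangle -/
def openTri (A B C : Pt) : Set Pt := {y | 0 < orient A B y ∧ 0 < orient B C y ∧ 0 < orient C A y}

/-- a nondegenerate triangle whose sides lie on lines of the arrangement -/
def LineTri {n : ℕ} (P : Fin n → Pt) (A B C : Pt) : Prop :=
  0 < orient A B C ∧ OnLine P B C ∧ OnLine P C A ∧ OnLine P A B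

theorem bary (A B C p q y : Pt) : orient A B C * orient p q y =
    orient B C y * orient p q A + orient C A y * orient p q B + orient A B y * orient p q C := by
  simp only [orient]; ring

theorem OnLine.symm {n : ℕ} {P : Fin n → Pt} {p q : Pt} (h : OnLine P p q) : OnLine P q p := by
  obtain ⟨i, j, h1, h2, h3⟩ := h
  exact ⟨i, j, h1, h3, h2⟩

theorem LineTri.rot {n : ℕ} {P : Fin n → Pt} {A B C : Pt} (h : LineTri P A B C) :
    LineTri P B C A := by
  obtain ⟨h1, h2, h3, h4⟩ := h
  exact ⟨by rw [orient_cyc] at h1; exact h1, h3, h4, h2⟩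

theorem openTri_rot (A B C : Pt) : openTri B C A = openTri A B C := by
  ext y; simp only [openTri, Set.mem_setOf_eq]; tauto

/-- the cutting step -/
theorem cut_apex {n : ℕ} {P : Fin n → Pt} {A B C : Pt} (h : LineTri P A B C) {i j : Fin n}
    (hij : i ≠ j) (hA : 0 < orient (P i) (P j) A) (hB : orient (P i) (P j) B ≤ 0)
    (hC : orient (P i) (P j) C ≤ 0) :
    ∃ B' C', LineTri P A B' C' ∧ openTri A B' C' ⊆ openTri A B C ∧
      ∀ y ∈ openTri A B' C', 0 < orient (P i) (P j) y := by
  obtain ⟨h1, h2, h3, h4⟩ := h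
  set a := orient (P i) (P j) A with ha
  set b := orient (P i) (P j) B with hb
  set c := orient (P i) (P j) C with hc
  obtain ⟨s, hs⟩ : ∃ s, s = a / (a - b) := ⟨_, rfl⟩
  obtain ⟨t, ht⟩ : ∃ t, t = a / (a - c) := ⟨_, rfl⟩
  have hab : 0 < a - b := by linarith
  have hac : 0 < a - c := by linarith
  have hs0 : 0 < s := by rw [hs]; positivity
  have ht0 : 0 < t := by rw [ht]; positivity
  have hs1 : s ≤ 1 := by rw [hs, div_le_one hab]; linarith
  have ht1 : t ≤ 1 := by rw [ht, div_le_one hac]; linarith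
  have hsab : s * (a - b) = a := by rw [hs]; field_simp
  have htac : t * (a - c) = a := by rw [ht]; field_simp
  obtain ⟨B', hB'⟩ : ∃ B' : Pt, B' = (1 - s) • A + s • B := ⟨_, rfl⟩
  obtain ⟨C', hC'⟩ : ∃ C' : Pt, C' = (1 - t) • A + t • C := ⟨_, rfl⟩
  have fB : orient (P i) (P j) B' = 0 := by
    rw [hB', orient_comb _ _ _ _ _ _ (by ring), ← ha, ← hb]; linarith
  have fC : orient (P i) (P j) C' = 0 := by
    rw [hC', orient_comb _ _ _ _ _ _ (by ring), ← ha, ← hc]; linarith
  have e1 : ∀ y, orient A B' y = s * orient A B y := by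
    intro y; rw [hB']; simp only [orient, Prod.fst_add, Prod.snd_add, Prod.smul_fst, Prod.smul_snd, smul_eq_mul]; ring
  have e2 : ∀ y, orient C' A y = t * orient C A y := by
    intro y; rw [hC']; simp only [orient, Prod.fst_add, Prod.snd_add, Prod.smul_fst, Prod.smul_snd, smul_eq_mul]; ring
  have e3 : orient A B' C' = s * t * orient A B C := by
    rw [e1, hC']; simp only [orient, Prod.fst_add, Prod.snd_add, Prod.smul_fst, Prod.smul_snd, smul_eq_mul]; ring
  have h5 : 0 < orient A B' C' := by rw [e3]; positivity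
  refine ⟨B', C', ⟨h5, ?_, ?_, ?_⟩, ?_, ?_⟩
  · rcases lt_or_gt_of_ne hij with hlt | hlt
    · exact ⟨i, j, hlt, fB, fC⟩
    · exact ⟨j, i, hlt, by rw [orient_swap, fB, neg_zero], by rw [orient_swap, fC, neg_zero]⟩
  · obtain ⟨k, l, hkl, g1, g2⟩ := h3
    exact ⟨k, l, hkl, by rw [hC', orient_comb _ _ _ _ _ _ (by ring), g1, g2]; ring, g2⟩
  · obtain ⟨k, l, hkl, g1, g2⟩ := h4
    exact ⟨k, l, hkl, g1, by rw [hB', orient_comb _ _ _ _ _ _ (by ring), g1, g2]; ring⟩
  · rintro y ⟨y1, y2, y3⟩
    rw [e1] at y1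
    rw [e2] at y3
    have z1 : 0 < orient A B y := (pos_iff_pos_of_mul_pos y1).1 hs0
    have z3 : 0 < orient C A y := (pos_iff_pos_of_mul_pos y3).1 ht0
    refine ⟨z1, ?_, z3⟩
    have hsum := Pool.Agent.H58.Tri.orient_sum A B C y
    have hsum' := Pool.Agent.H58.Tri.orient_sum A B' C' y
    rw [e1, e2, e3] at hsum'
    have w1 : s * t * orient A B y ≤ s * orient A B y := by
      have : 0 ≤ s * orient A B y := y1.le
      nlinarith
    have w2 : s * t * orient C A y ≤ t * orient C A y := by
      have : 0 ≤ t * orient C A y := y3.le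
      nlinarith
    have w3 : 0 < s * t * orient B C y := by
      have : s * t * orient B C y = s * t * orient A B C - s * t * orient A B y - s * t * orient C A y := by
        rw [← hsum]; ring
      linarith
    exact (pos_iff_pos_of_mul_pos w3).1 (by positivity)
  · rintro y ⟨y1, y2, y3⟩
    have hb1 := bary A B' C' (P i) (P j) y
    rw [fB, fC, ← ha] at hb1
    have : 0 < orient A B' C' * orient (P i) (P j) y := by
      rw [hb1]; have := mul_pos y2 hA; linarith
    exact (pos_iff_pos_of_mul_pos this).1 h5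

theorem zero_of_three {p q A B C : Pt} (h : 0 < orient A B C) (hA : orient p q A = 0)
    (hB : orient p q B = 0) (hC : orient p q C = 0) : p = q := by
  have h1 := bary A B C p q p
  have key : ∀ y, orient p q y = 0 := by
    intro y
    have h1 := bary A B C p q y
    rw [hA, hB, hC] at h1
    simp only [mul_zero, add_zero] at h1
    exact (mul_eq_zero.1 h1).resolve_left h.ne'
  have k1 := key (p.1 - (q.2 - p.2), p.2 + (q.1 - p.1))
  have k2 : (q.1 - p.1) ^ 2 + (q.2 - p.2) ^ 2 = 0 := by
    simp only [orient] at k1; linarith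
  have k3 : q.1 - p.1 = 0 := by nlinarith [sq_nonneg (q.1 - p.1), sq_nonneg (q.2 - p.2)]
  have k4 : q.2 - p.2 = 0 := by nlinarith [sq_nonneg (q.1 - p.1), sq_nonneg (q.2 - p.2)]
  exact Prod.ext (by linarith) (by linarith)

/-- one cutting step in general position -/
theorem cut_step {n : ℕ} (hn : 3 ≤ n) {P : Fin n → Pt} (hP : Ccw P) {A B C : Pt}
    (h : LineTri P A B C) {i j : Fin n} (hij : i ≠ j) {y : Pt} (hy : y ∈ openTri A B C)
    (h0 : orient (P i) (P j) y = 0) :
    ∃ A' B' C', LineTri P A' B' C' ∧ openTri A' B' C' ⊆ openTri A B C ∧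
      ∀ y ∈ openTri A' B' C', orient (P i) (P j) y ≠ 0 := by
  -- apex with a sign
  have key : ∀ A B C : Pt, LineTri P A B C → orient (P i) (P j) A ≠ 0 →
      orient (P i) (P j) A * orient (P i) (P j) B ≤ 0 →
      orient (P i) (P j) A * orient (P i) (P j) C ≤ 0 →
      ∃ A' B' C', LineTri P A' B' C' ∧ openTri A' B' C' ⊆ openTri A B C ∧
      ∀ y ∈ openTri A' B' C', orient (P i) (P j) y ≠ 0 := by
    intro A B C hT hA hB hC
    rcases lt_or_gt_of_ne hA with hneg | hpos
    · have hA' : 0 < orient (P j) (P i) A := by rw [orient_swap]; linarith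
      have hB' : orient (P j) (P i) B ≤ 0 := by
        rw [orient_swap]
        by_contra hcon
        push Not at hcon
        have := mul_pos_of_neg_of_neg hneg (by linarith : orient (P i) (P j) B < 0)
        linarith
      have hC' : orient (P j) (P i) C ≤ 0 := by
        rw [orient_swap]
        by_contra hcon
        push Not at hcon
        have := mul_pos_of_neg_of_neg hneg (by linarith : orient (P i) (P j) C < 0)
        linarith
      obtain ⟨B', C', h1, h2, h3⟩ := cut_apex hT hij.symm hA' hB' hC'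
      refine ⟨A, B', C', h1, h2, fun y hy h0 => ?_⟩
      have := h3 y hy
      rw [orient_swap, h0] at this
      simp at this
    · have hB' : orient (P i) (P j) B ≤ 0 := by
        by_contra hcon
        push Not at hcon
        have := mul_pos hpos hcon
        linarith
      have hC' : orient (P i) (P j) C ≤ 0 := by
        by_contra hcon
        push Not at hcon
        have := mul_pos hpos hcon
        linarith
      obtain ⟨B', C', h1, h2, h3⟩ := cut_apex hT hij hpos hB' hC'
      exact ⟨A, B', C', h1, h2, fun y hy => (h3 y hy).ne'⟩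
  have hb := bary A B C (P i) (P j) y
  rw [h0, mul_zero] at hb
  obtain ⟨y1, y2, y3⟩ := hy
  have hne : ¬ (orient (P i) (P j) A = 0 ∧ orient (P i) (P j) B = 0 ∧ orient (P i) (P j) C = 0) := by
    rintro ⟨z1, z2, z3⟩
    exact ccw_ne hn hP hij (zero_of_three h.1 z1 z2 z3)
  set a := orient (P i) (P j) A with ha
  set b := orient (P i) (P j) B with hb'
  set c := orient (P i) (P j) C with hc
  have kA : a ≠ 0 → a * b ≤ 0 → a * c ≤ 0 → ∃ A' B' C', LineTri P A' B' C' ∧
      openTri A' B' C' ⊆ openTri A B C ∧ ∀ y ∈ openTri A' B' C', orient (P i) (P j) y ≠ 0 :=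
    key A B C h
  have kB : b ≠ 0 → b * c ≤ 0 → b * a ≤ 0 → ∃ A' B' C', LineTri P A' B' C' ∧
      openTri A' B' C' ⊆ openTri A B C ∧ ∀ y ∈ openTri A' B' C', orient (P i) (P j) y ≠ 0 := by
    intro z1 z2 z3
    have := key B C A h.rot z1 z2 z3
    rwa [openTri_rot] at this
  have kC : c ≠ 0 → c * a ≤ 0 → c * b ≤ 0 → ∃ A' B' C', LineTri P A' B' C' ∧
      openTri A' B' C' ⊆ openTri A B C ∧ ∀ y ∈ openTri A' B' C', orient (P i) (P j) y ≠ 0 := by
    intro z1 z2 z3
    have := key C A B h.rot.rot z1 z2 z3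
    rwa [openTri_rot, openTri_rot] at this
  clear_value a b c
  rcases lt_trichotomy a 0 with a0 | a0 | a0 <;> rcases lt_trichotomy b 0 with b0 | b0 | b0 <;>
    rcases lt_trichotomy c 0 with c0 | c0 | c0
  all_goals first
    | exact kA a0.ne (by nlinarith) (by nlinarith)
    | exact kA a0.ne' (by nlinarith) (by nlinarith)
    | exact kB b0.ne (by nlinarith) (by nlinarith)
    | exact kB b0.ne' (by nlinarith) (by nlinarith)
    | exact kC c0.ne (by nlinarith) (by nlinarith)
    | exact kC c0.ne' (by nlinarith) (by nlinarith)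
    | exact absurd ⟨a0, b0, c0⟩ hne
    | (exfalso; nlinarith [mul_pos y1 y1])

open Classical in
/-- the number of lines meeting the open triangle -/
noncomputable def hits {n : ℕ} (P : Fin n → Pt) (A B C : Pt) : Finset (Fin n × Fin n) :=
  Finset.univ.filter fun e => e.1 ≠ e.2 ∧ ∃ y ∈ openTri A B C, orient (P e.1) (P e.2) y = 0

theorem exists_free {n : ℕ} (hn : 3 ≤ n) {P : Fin n → Pt} (hP : Ccw P) :
    ∀ (k : ℕ) (A B C : Pt), LineTri P A B C → (hits P A B C).card ≤ k →
      ∃ A' B' C', LineTri P A' B' C' ∧ openTri A' B' C' ⊆ openTri A B C ∧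
        ∀ i j : Fin n, i ≠ j → ∀ y ∈ openTri A' B' C', orient (P i) (P j) y ≠ 0 := by
  classical
  intro k
  induction k with
  | zero =>
    intro A B C h hk
    refine ⟨A, B, C, h, subset_rfl, fun i j hij y hy h0 => ?_⟩
    have : (i, j) ∈ hits P A B C := by
      simp only [hits, Finset.mem_filter, Finset.mem_univ, true_and]
      exact ⟨hij, y, hy, h0⟩
    rw [Nat.le_zero, Finset.card_eq_zero] at hk
    rw [hk] at this
    exact absurd this (Finset.notMem_empty _)
  | succ k ih =>
    intro A B C h hk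
    by_cases hfree : ∀ i j : Fin n, i ≠ j → ∀ y ∈ openTri A B C, orient (P i) (P j) y ≠ 0
    · exact ⟨A, B, C, h, subset_rfl, hfree⟩
    · push Not at hfree
      obtain ⟨i, j, hij, y, hy, h0⟩ := hfree
      obtain ⟨A', B', C', h1, h2, h3⟩ := cut_step hn hP h hij hy h0
      have hlt : hits P A' B' C' ⊂ hits P A B C := by
        rw [Finset.ssubset_iff_of_subset]
        · refine ⟨(i, j), ?_, ?_⟩
          · simp only [hits, Finset.mem_filter, Finset.mem_univ, true_and]
            exact ⟨hij, y, hy, h0⟩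
          · simp only [hits, Finset.mem_filter, Finset.mem_univ, true_and, not_and]
            rintro - ⟨z, hz, hz0⟩
            exact h3 z hz hz0
        · intro e he
          simp only [hits, Finset.mem_filter, Finset.mem_univ, true_and] at he ⊢
          obtain ⟨he1, z, hz, hz0⟩ := he
          exact ⟨he1, z, h2 hz, hz0⟩
      have hcard := Finset.card_lt_card hlt
      obtain ⟨A'', B'', C'', g1, g2, g3⟩ := ih A' B' C' h1 (by omega)
      exact ⟨A'', B'', C'', g1, g2.trans h2, g3⟩

theorem side_mul {n : ℕ} {P : Fin n → Pt} (hn : 3 ≤ n) (hP : Ccw P) {p q : Pt} (h : OnLine P p q)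
    {x y : Pt} (hxy : ∀ i j : Fin n, i ≠ j → 0 < orient (P i) (P j) x * orient (P i) (P j) y)
    (hx : 0 < orient p q x) : 0 < orient p q y := by
  obtain ⟨i, j, hij, h1, h2⟩ := h
  obtain ⟨b, hb⟩ := exists_param (ccw_ne hn hP hij.ne) h1
  obtain ⟨c, hc⟩ := exists_param (ccw_ne hn hP hij.ne) h2
  have e : ∀ y, orient p q y = (c - b) * orient (P i) (P j) y := by
    intro y
    rw [hb, hc]
    simp only [orient, Prod.fst_add, Prod.snd_add, Prod.smul_fst, Prod.smul_snd, smul_eq_mul]
    ring
  have h3 := hxy i j hij.ne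
  rw [e] at hx ⊢
  have h4 : 0 < ((c - b) * orient (P i) (P j) x) * ((c - b) * orient (P i) (P j) y) := by
    have hcb : c - b ≠ 0 := by
      intro h0; rw [h0, zero_mul] at hx; exact lt_irrefl _ hx
    have : ((c - b) * orient (P i) (P j) x) * ((c - b) * orient (P i) (P j) y) =
        (c - b) ^ 2 * (orient (P i) (P j) x * orient (P i) (P j) y) := by ring
    rw [this]
    positivity
  exact (pos_iff_pos_of_mul_pos h4).1 hx

/-- **Main lemma**: a triangle formed by three chords inside the polygon contains a 3-face. -/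
theorem exists_face {n : ℕ} (hn : 3 ≤ n) {P : Fin n → Pt} (hP : Ccw P) {A B C : Pt}
    (h : LineTri P A B C) (hin : openTri A B C ⊆ inside P) :
    ∃ F ∈ triFaces P, F.Nonempty ∧ F ⊆ openTri A B C := by
  obtain ⟨A', B', C', h1, h2, h3⟩ := exists_free hn hP _ A B C h le_rfl
  have hABC := h1.1
  have hBCA : 0 < orient B' C' A' := by rw [orient_cyc] at hABC; exact hABC
  have hCAB : 0 < orient C' A' B' := by rw [orient_cyc, orient_cyc] at hABC; exact hABC
  obtain ⟨G, hG⟩ : ∃ G : Pt, G = (1 / 3 : ℝ) • A' + (2 / 3 : ℝ) • ((1 / 2 : ℝ) • B' + (1 / 2 : ℝ) • C') :=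
    ⟨_, rfl⟩
  have hG1 : ∀ p q : Pt, orient p q G = (orient p q A' + orient p q B' + orient p q C') / 3 := by
    intro p q
    rw [hG, orient_comb _ _ _ _ _ _ (by norm_num), orient_comb _ _ _ _ _ _ (by norm_num)]
    ring
  have hGm : G ∈ openTri A' B' C' := by
    refine ⟨?_, ?_, ?_⟩
    · rw [hG1, orient_self₂, orient_self₃]; linarith
    · rw [hG1, orient_self₂, orient_self₃]; linarith
    · rw [hG1, orient_self₂, orient_self₃]; linarith
  have hGoff : G ∈ offLines P := ⟨hin (h2 hGm), fun i j hij => h3 i j hij G hGm⟩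
  have hcell : cell P G = openTri A' B' C' := by
    apply Set.Subset.antisymm
    · intro y hy
      obtain ⟨g1, g2, g3⟩ := hGm
      exact ⟨side_mul hn hP h1.2.2.2 (fun i j hij => hy i j hij) g1,
        side_mul hn hP h1.2.1 (fun i j hij => hy i j hij) g2,
        side_mul hn hP h1.2.2.1 (fun i j hij => hy i j hij) g3⟩
    · intro y hy i j hij
      by_contra hcon
      push Not at hcon
      have n1 := h3 i j hij G hGm
      have n2 := h3 i j hij y hy
      have hlt : orient (P i) (P j) G * orient (P i) (P j) y < 0 := by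
        rcases hcon.lt_or_eq with hh | hh
        · exact hh
        · exact absurd hh (mul_ne_zero n1 n2)
      -- a zero on the segment
      obtain ⟨u, hu⟩ : ∃ u, u = orient (P i) (P j) G := ⟨_, rfl⟩
      obtain ⟨w, hw⟩ : ∃ w, w = orient (P i) (P j) y := ⟨_, rfl⟩
      rw [← hu, ← hw] at hlt
      have huw : u - w ≠ 0 := by
        intro h0
        have : u = w := by linarith
        rw [this] at hlt
        nlinarith [mul_self_nonneg w]
      have hsq : 0 < (u - w) ^ 2 := by positivity
      obtain ⟨s, hs⟩ : ∃ s, s = (-w) * (u - w) / (u - w) ^ 2 := ⟨_, rfl⟩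
      obtain ⟨t, ht⟩ : ∃ t, t = u * (u - w) / (u - w) ^ 2 := ⟨_, rfl⟩
      have hs0 : 0 < s := by
        rw [hs]; apply div_pos _ hsq; nlinarith [mul_self_nonneg w]
      have ht0 : 0 < t := by
        rw [ht]; apply div_pos _ hsq; nlinarith [mul_self_nonneg u]
      have hst : s + t = 1 := by
        rw [hs, ht, ← add_div, div_eq_one_iff_eq hsq.ne']; ring
      have hz : s • G + t • y ∈ openTri A' B' C' := by
        obtain ⟨g1, g2, g3⟩ := hGm
        obtain ⟨y1, y2, y3⟩ := hy
        refine ⟨?_, ?_, ?_⟩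
        · rw [orient_comb _ _ _ _ _ _ hst]; positivity
        · rw [orient_comb _ _ _ _ _ _ hst]; positivity
        · rw [orient_comb _ _ _ _ _ _ hst]; positivity
      apply h3 i j hij _ hz
      rw [orient_comb _ _ _ _ _ _ hst, ← hu, ← hw, hs, ht]
      field_simp
      ring
  refine ⟨cell P G, ⟨(isFace_iff hn hP _).2 ⟨G, hGoff, rfl⟩, A', B', C', hABC.ne', ?_⟩,
    ⟨G, self_mem_cell hGoff⟩, ?_⟩
  · rw [hcell, Pool.Agent.H58.Tri.interior_hull hABC]; rfl
  · rw [hcell]; exact h2

end Pool.Agent.H44.Tri
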