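import Pool.Agent.H44.Tri.Sum

/-!
# Three separated non-concurrent chords near a point give a triangular face near the point
-/

set_option autoImplicit false

namespace Pool.Agent.H44.Tri

open Pool.H47.Tri Real

/-- basic linear algebra of two lines -/
theorem cramer {c1 s1 c2 s2 e1 e2 u v : ℝ} (h1 : c1 * u + s1 * v = e1) (h2 : c2 * u + s2 * v = e2) :
    (c1 * s2 - c2 * s1) * u = s2 * e1 - s1 * e2 ∧ (c1 * s2 - c2 * s1) * v = c1 * e2 - c2 * e1 := by
  constructor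
  · rw [← h1, ← h2]; ring
  · rw [← h1, ← h2]; ring

theorem dist_cross {n q : ℕ} (hn : 200 ≤ n) (hq : 16 * q ≤ n) {e f : ℕ × ℕ} (he1 : e.1 ≤ q)
    (he2 : e.2 ≤ q) (hf1 : f.1 ≤ q) (hf2 : f.2 ≤ q) {r : ℕ} (hr : 0 < r) (hd : r ≤ dd e f)
    {x p : Pt} {δ : ℝ} (hx : |Le n e x| ≤ δ) (hx' : |Le n f x| ≤ δ) (hp : Le n e p = 0)
    (hp' : Le n f p = 0) : |x.1 - p.1| ≤ δ * n / r ∧ |x.2 - p.2| ≤ δ * n / r := by
  have hn0 : 0 < n := by omega
  have hn' : (0 : ℝ) < n := by exact_mod_cast hn0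
  have hr' : (0 : ℝ) < r := by exact_mod_cast hr
  have hδ : 0 ≤ δ := (abs_nonneg _).trans hx
  rw [Le_eq] at hx hx' hp hp'
  obtain ⟨ε1, h1⟩ : ∃ ε, ε = x.1 * cos (mm n e) + x.2 * sin (mm n e) - cos (ph n e) := ⟨_, rfl⟩
  obtain ⟨ε2, h2⟩ : ∃ ε, ε = x.1 * cos (mm n f) + x.2 * sin (mm n f) - cos (ph n f) := ⟨_, rfl⟩
  rw [← h1] at hx
  rw [← h2] at hx'
  have k1 : cos (mm n e) * (x.1 - p.1) + sin (mm n e) * (x.2 - p.2) = ε1 := by linarith
  have k2 : cos (mm n f) * (x.1 - p.1) + sin (mm n f) * (x.2 - p.2) = ε2 := by linarith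
  obtain ⟨c1, c2⟩ := cramer k1 k2
  have hD := abs_det_ge hn hq he1 he2 hf1 hf2
  rw [← dd_cast] at hD
  obtain ⟨D, hDd⟩ : ∃ D, D = cos (mm n e) * sin (mm n f) - cos (mm n f) * sin (mm n e) := ⟨_, rfl⟩
  rw [← hDd] at hD c1 c2
  have hdr : (r : ℝ) ≤ (dd e f : ℝ) := by exact_mod_cast hd
  have hD2 : 2 * r / n ≤ |D| := by
    refine le_trans ?_ hD
    rw [div_le_div_iff_of_pos_right hn']
    linarith
  have hDpos : 0 < |D| := lt_of_lt_of_le (by positivity) hD2
  have b1 := abs_sin_le_one (mm n e)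
  have b2 := abs_sin_le_one (mm n f)
  have b3 := abs_cos_le_one (mm n e)
  have b4 := abs_cos_le_one (mm n f)
  have prod : ∀ a b : ℝ, |a| ≤ 1 → |b| ≤ δ → |a * b| ≤ δ := by
    intro a b ha hb
    rw [abs_mul]
    have := mul_le_mul ha hb (abs_nonneg _) (by norm_num)
    linarith
  have fin : ∀ t R : ℝ, D * t = R → |R| ≤ 2 * δ → |t| ≤ δ * n / r := by
    intro t R ht hR
    rw [← ht, abs_mul] at hR
    rw [le_div_iff₀ hr']
    have h5 : 2 * r ≤ |D| * n := by rwa [div_le_iff₀ hn'] at hD2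
    have h6 : 0 ≤ |t| := abs_nonneg t
    have h7 : |t| * (2 * r) ≤ |t| * (|D| * n) := mul_le_mul_of_nonneg_left h5 h6
    have h8 : |D| * |t| * n ≤ 2 * δ * n := mul_le_mul_of_nonneg_right hR hn'.le
    nlinarith
  constructor
  · apply fin _ _ c1
    refine (abs_sub _ _).trans ?_
    have := prod _ _ b2 hx
    have := prod _ _ b1 hx'
    linarith
  · apply fin _ _ c2
    refine (abs_sub _ _).trans ?_
    have := prod _ _ b3 hx'
    have := prod _ _ b4 hx
    linarith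

theorem exists_cross {n q : ℕ} (hn : 200 ≤ n) (hq : 16 * q ≤ n) {e f : ℕ × ℕ} (he1 : e.1 ≤ q)
    (he2 : e.2 ≤ q) (hf1 : f.1 ≤ q) (hf2 : f.2 ≤ q) (hd : 0 < dd e f) :
    ∃ p : Pt, Le n e p = 0 ∧ Le n f p = 0 := by
  have hn0 : 0 < n := by omega
  have hn' : (0 : ℝ) < n := by exact_mod_cast hn0
  have hD := abs_det_ge hn hq he1 he2 hf1 hf2
  rw [← dd_cast] at hD
  have hdr : (0 : ℝ) < (dd e f : ℝ) := by exact_mod_cast hd
  have hDpos : 0 < |cos (mm n e) * sin (mm n f) - cos (mm n f) * sin (mm n e)| :=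
    lt_of_lt_of_le (by positivity) hD
  have hD0 := abs_pos.1 hDpos
  obtain ⟨D, hDd⟩ : ∃ D, D = cos (mm n e) * sin (mm n f) - cos (mm n f) * sin (mm n e) := ⟨_, rfl⟩
  rw [← hDd] at hD0
  refine ⟨((cos (ph n e) * sin (mm n f) - cos (ph n f) * sin (mm n e)) / D,
    (cos (mm n e) * cos (ph n f) - cos (mm n f) * cos (ph n e)) / D), ?_, ?_⟩
  · rw [Le_eq]
    simp only
    have : (cos (ph n e) * sin (mm n f) - cos (ph n f) * sin (mm n e)) / D * cos (mm n e) +
        (cos (mm n e) * cos (ph n f) - cos (mm n f) * cos (ph n e)) / D * sin (mm n e) -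
        cos (ph n e) = (cos (ph n e) * (cos (mm n e) * sin (mm n f) - cos (mm n f) * sin (mm n e)) -
          cos (ph n e) * D) / D := by
      field_simp; ring
    rw [this, ← hDd]; simp
  · rw [Le_eq]
    simp only
    have : (cos (ph n e) * sin (mm n f) - cos (ph n f) * sin (mm n e)) / D * cos (mm n f) +
        (cos (mm n e) * cos (ph n f) - cos (mm n f) * cos (ph n e)) / D * sin (mm n f) -
        cos (ph n f) = (cos (ph n f) * (cos (mm n e) * sin (mm n f) - cos (mm n f) * sin (mm n e)) -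
          cos (ph n f) * D) / D := by
      field_simp; ring
    rw [this, ← hDd]; simp

theorem cross_unique {n q : ℕ} (hn : 200 ≤ n) (hq : 16 * q ≤ n) {e f : ℕ × ℕ} (he1 : e.1 ≤ q)
    (he2 : e.2 ≤ q) (hf1 : f.1 ≤ q) (hf2 : f.2 ≤ q) (hd : 0 < dd e f) {x p : Pt}
    (h1 : Le n e x = 0) (h2 : Le n f x = 0) (h3 : Le n e p = 0) (h4 : Le n f p = 0) : x = p := by
  have := dist_cross hn hq he1 he2 hf1 hf2 (r := 1) (by norm_num) hd (δ := 0)
    (by rw [h1]; simp) (by rw [h2]; simp) h3 h4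
  simp only [zero_mul, zero_div, abs_nonpos_iff] at this
  exact Prod.ext (by linarith [this.1]) (by linarith [this.2])

theorem Le_comb (n : ℕ) (e : ℕ × ℕ) (x y : Pt) (t : ℝ) :
    Le n e ((1 - t) • x + t • y) = (1 - t) * Le n e x + t * Le n e y := by
  rw [Le_eq, Le_eq, Le_eq]
  simp only [Prod.fst_add, Prod.snd_add, Prod.smul_fst, Prod.smul_snd, smul_eq_mul]
  ring

theorem onLine_of_Le {n q : ℕ} (hn : 200 ≤ n) (hq : 16 * q ≤ n) {e : ℕ × ℕ} (he1 : e.1 ≤ q)
    (he2 : e.2 ≤ q) {x y : Pt} (hx : Le n e x = 0) (hy : Le n e y = 0) :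
    OnLine (regularPolygon n) x y := by
  have h1 : e.1 < n := by omega
  have h2 : n / 2 + e.2 < n := by omega
  refine ⟨⟨e.1, h1⟩, ⟨n / 2 + e.2, h2⟩, ?_, ?_, ?_⟩
  · rw [Fin.lt_def]; simp only; omega
  · rw [orient_reg]
    have : L n (((⟨e.1, h1⟩ : Fin n) : ℕ) : ℝ) (((⟨n / 2 + e.2, h2⟩ : Fin n) : ℕ) : ℝ) x = 0 := hx
    rw [this, mul_zero]
  · rw [orient_reg]
    have : L n (((⟨e.1, h1⟩ : Fin n) : ℕ) : ℝ) (((⟨n / 2 + e.2, h2⟩ : Fin n) : ℕ) : ℝ) y = 0 := hy
    rw [this, mul_zero]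

/-- the box around a grid point -/
def box (U W : ℕ) (x : ℤ × ℤ) : Set Pt :=
  {y | |2 * U * y.1 - x.1| ≤ W ∧ |2 * U * y.2 - x.2| ≤ W}

theorem convex_box (U W : ℕ) (x : ℤ × ℤ) {a b c : ℝ} (ha : 0 ≤ a) (hb : 0 ≤ b) (hc : 0 ≤ c)
    (h : a + b + c = 1) {A B C : Pt} (hA : A ∈ box U W x) (hB : B ∈ box U W x)
    (hC : C ∈ box U W x) : a • A + b • B + c • C ∈ box U W x := by
  obtain ⟨a1, a2⟩ := hA
  obtain ⟨b1, b2⟩ := hB
  obtain ⟨c1, c2⟩ := hC
  have key : ∀ s t u : ℝ, |s| ≤ W → |t| ≤ W → |u| ≤ W → |a * s + b * t + c * u| ≤ W := by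
    intro s t u hs ht hu
    rw [abs_le] at hs ht hu ⊢
    have e1 : (W : ℝ) = a * W + b * W + c * W := by rw [← add_mul, ← add_mul, h, one_mul]
    constructor
    · have := mul_le_mul_of_nonneg_left hs.1 ha
      have := mul_le_mul_of_nonneg_left ht.1 hb
      have := mul_le_mul_of_nonneg_left hu.1 hc
      linarith
    · have := mul_le_mul_of_nonneg_left hs.2 ha
      have := mul_le_mul_of_nonneg_left ht.2 hb
      have := mul_le_mul_of_nonneg_left hu.2 hc
      linarith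
  have hx1 : (x.1 : ℝ) = a * x.1 + b * x.1 + c * x.1 := by rw [← add_mul, ← add_mul, h, one_mul]
  have hx2 : (x.2 : ℝ) = a * x.2 + b * x.2 + c * x.2 := by rw [← add_mul, ← add_mul, h, one_mul]
  constructor
  · have := key _ _ _ a1 b1 c1
    simp only [Prod.fst_add, Prod.smul_fst, smul_eq_mul]
    have e : 2 * (U : ℝ) * (a * A.1 + b * B.1 + c * C.1) - x.1 =
        a * (2 * U * A.1 - x.1) + b * (2 * U * B.1 - x.1) + c * (2 * U * C.1 - x.1) := by
      nth_rewrite 1 [hx1]; ring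
    rw [e]; exact this
  · have := key _ _ _ a2 b2 c2
    simp only [Prod.snd_add, Prod.smul_snd, smul_eq_mul]
    have e : 2 * (U : ℝ) * (a * A.2 + b * B.2 + c * C.2) - x.2 =
        a * (2 * U * A.2 - x.2) + b * (2 * U * B.2 - x.2) + c * (2 * U * C.2 - x.2) := by
      nth_rewrite 1 [hx2]; ring
    rw [e]; exact this

/-- **Geometric step.** -/
theorem face_near {n q U W r : ℕ} (hn : 200 ≤ n) (hq : 16 * q ≤ n) (hU : 0 < U) (hr : 0 < r)
    {x : ℤ × ℤ} (hx : x ∈ grid U) {ω : ℝ} (hω : ω * n / r ≤ W) (hWU : 10 * W ≤ U)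
    {e f g : ℕ × ℕ} (he : e ∈ fam q) (hf : f ∈ fam q) (hg : g ∈ fam q)
    (hef : r ≤ dd e f) (hfg : r ≤ dd f g) (heg : r ≤ dd e g)
    (ne : |Le n e (pt U x)| ≤ ω / (2 * U)) (nf : |Le n f (pt U x)| ≤ ω / (2 * U))
    (ng : |Le n g (pt U x)| ≤ ω / (2 * U))
    (hnc : ¬ ∃ p, Le n e p = 0 ∧ Le n f p = 0 ∧ Le n g p = 0) :
    ∃ F ∈ triFaces (regularPolygon n), F.Nonempty ∧ F ⊆ box U W x := by
  have hU' : (0 : ℝ) < U := by exact_mod_cast hU
  have hWU' : 10 * (W : ℝ) ≤ U := by exact_mod_cast hWU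
  simp only [fam, Finset.mem_product, Finset.mem_range] at he hf hg
  obtain ⟨A, A1, A2⟩ := exists_cross hn hq he.1.le he.2.le hf.1.le hf.2.le (lt_of_lt_of_le hr hef)
  obtain ⟨B, B1, B2⟩ := exists_cross hn hq hf.1.le hf.2.le hg.1.le hg.2.le (lt_of_lt_of_le hr hfg)
  obtain ⟨C, C1, C2⟩ := exists_cross hn hq he.1.le he.2.le hg.1.le hg.2.le (lt_of_lt_of_le hr heg)
  have inbox : ∀ {p : Pt} {a b : ℕ × ℕ}, a.1 < q ∧ a.2 < q → b.1 < q ∧ b.2 < q → r ≤ dd a b →
      |Le n a (pt U x)| ≤ ω / (2 * U) → |Le n b (pt U x)| ≤ ω / (2 * U) → Le n a p = 0 →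
      Le n b p = 0 → p ∈ box U W x := by
    intro p a b ha hb hd h1 h2 h3 h4
    obtain ⟨d1, d2⟩ := dist_cross hn hq ha.1.le ha.2.le hb.1.le hb.2.le hr hd h1 h2 h3 h4
    have hle : ω / (2 * U) * n / r ≤ W / (2 * U) := by
      have : ω / (2 * U) * n / r = (ω * n / r) / (2 * U) := by field_simp
      rw [this, div_le_div_iff_of_pos_right (by positivity)]
      exact hω
    have e1 : 2 * (U : ℝ) * (pt U x).1 = x.1 := by unfold pt; field_simp
    have e2 : 2 * (U : ℝ) * (pt U x).2 = x.2 := by unfold pt; field_simp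
    constructor
    · rw [← e1, ← mul_sub, abs_mul, abs_of_pos (by positivity : (0 : ℝ) < 2 * U), abs_sub_comm]
      have h5 := d1.trans hle
      rw [le_div_iff₀ (by positivity)] at h5
      linarith
    · rw [← e2, ← mul_sub, abs_mul, abs_of_pos (by positivity : (0 : ℝ) < 2 * U), abs_sub_comm]
      have h5 := d2.trans hle
      rw [le_div_iff₀ (by positivity)] at h5
      linarith
  have bA := inbox he hf hef ne nf A1 A2
  have bB := inbox hf hg hfg nf ng B1 B2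
  have bC := inbox he hg heg ne ng C1 C2
  -- non-degenerate
  have hnd : orient A B C ≠ 0 := by
    intro h0
    have hAB : A ≠ B := by
      rintro rfl
      exact hnc ⟨A, A1, A2, B2⟩
    obtain ⟨t, ht⟩ := exists_param hAB h0
    apply hnc
    refine ⟨C, C1, ?_, C2⟩
    rw [ht, Le_comb, A2, B1]; ring
  have hsub : ∀ X Y Z : Pt, X ∈ box U W x → Y ∈ box U W x → Z ∈ box U W x → 0 < orient X Y Z →
      openTri X Y Z ⊆ box U W x := by
    intro X Y Z hX hY hZ h0 y hy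
    obtain ⟨a, b, c, ha, hb, hc, habc, rfl⟩ := triangle_comb h0 hy.1.le hy.2.1.le hy.2.2.le
    exact convex_box U W x ha hb hc habc hX hY hZ
  have hinside : box U W x ⊆ inside (regularPolygon n) := by
    intro y hy
    apply inside_reg (by omega)
    obtain ⟨p1, p2⟩ := pt_bound hU hx
    have e1 : 2 * (U : ℝ) * (pt U x).1 = x.1 := by unfold pt; field_simp
    have e2 : 2 * (U : ℝ) * (pt U x).2 = x.2 := by unfold pt; field_simp
    obtain ⟨y1, y2⟩ := hy
    rw [← e1, ← mul_sub, abs_mul, abs_of_pos (by positivity : (0 : ℝ) < 2 * U)] at y1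
    rw [← e2, ← mul_sub, abs_mul, abs_of_pos (by positivity : (0 : ℝ) < 2 * U)] at y2
    have z1 : |y.1 - (pt U x).1| ≤ 1 / 20 := by
      by_contra hcon
      push Not at hcon
      nlinarith
    have z2 : |y.2 - (pt U x).2| ≤ 1 / 20 := by
      by_contra hcon
      push Not at hcon
      nlinarith
    rw [abs_le] at z1 z2 p1 p2
    have w1 : |y.1| ≤ 11 / 20 := by rw [abs_le]; constructor <;> linarith
    have w2 : |y.2| ≤ 11 / 20 := by rw [abs_le]; constructor <;> linarith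
    have v1 : y.1 ^ 2 ≤ (11 / 20) ^ 2 := by
      rw [← sq_abs]; exact pow_le_pow_left₀ (abs_nonneg _) w1 2
    have v2 : y.2 ^ 2 ≤ (11 / 20) ^ 2 := by
      rw [← sq_abs]; exact pow_le_pow_left₀ (abs_nonneg _) w2 2
    linarith
  have oAB : OnLine (regularPolygon n) A B := onLine_of_Le hn hq hf.1.le hf.2.le A2 B1
  have oBC : OnLine (regularPolygon n) B C := onLine_of_Le hn hq hg.1.le hg.2.le B2 C2
  have oCA : OnLine (regularPolygon n) C A := onLine_of_Le hn hq he.1.le he.2.le C1 A1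
  have hP := ccw_reg n
  rcases lt_or_gt_of_ne hnd with hneg | hpos
  · have h0 : 0 < orient B A C := by rw [orient_swap]; linarith
    have hs := hsub B A C bB bA bC h0
    obtain ⟨F, hF, hne, hFs⟩ := exists_face (by omega) hP
      (A := B) (B := A) (C := C) ⟨h0, oCA.symm, oBC.symm, oAB.symm⟩ (hs.trans hinside)
    exact ⟨F, hF, hne, hFs.trans hs⟩
  · have hs := hsub A B C bA bB bC hpos
    obtain ⟨F, hF, hne, hFs⟩ := exists_face (by omega) hP
      (A := A) (B := B) (C := C) ⟨hpos, oBC, oCA, oAB⟩ (hs.trans hinside)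
    exact ⟨F, hF, hne, hFs.trans hs⟩

theorem Le_diff (n U : ℕ) (hU : 0 < U) (e : ℕ × ℕ) (x y : ℤ × ℤ) {M : ℝ}
    (h1 : |(x.1 : ℝ) - y.1| ≤ M) (h2 : |(x.2 : ℝ) - y.2| ≤ M) :
    |Le n e (pt U x)| ≤ |Le n e (pt U y)| + 2 * M / (2 * U) := by
  have hU' : (0 : ℝ) < U := by exact_mod_cast hU
  have h3 : Le n e (pt U x) = Le n e (pt U y) +
      (((x.1 : ℝ) - y.1) * cos (mm n e) + ((x.2 : ℝ) - y.2) * sin (mm n e)) / (2 * U) := by
    rw [Le_eq, Le_eq]; unfold pt; field_simp; ring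
  rw [h3]
  refine (abs_add_le _ _).trans ?_
  have h4 : |(((x.1 : ℝ) - y.1) * cos (mm n e) + ((x.2 : ℝ) - y.2) * sin (mm n e)) / (2 * U)| ≤
      2 * M / (2 * U) := by
    rw [abs_div, abs_of_pos (by positivity : (0 : ℝ) < 2 * U),
      div_le_div_iff_of_pos_right (by positivity)]
    refine (abs_add_le _ _).trans ?_
    rw [abs_mul, abs_mul]
    have b1 := abs_sin_le_one (mm n e)
    have b3 := abs_cos_le_one (mm n e)
    have := mul_le_mul h1 b3 (abs_nonneg _) ((abs_nonneg _).trans h1)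
    have := mul_le_mul h2 b1 (abs_nonneg _) ((abs_nonneg _).trans h2)
    linarith
  linarith

open Classical in
/-- **Two good points far apart give a face near the first one.** -/
theorem face_of_two {n q U W K M r : ℕ} (hn : 200 ≤ n) (hq : 16 * q ≤ n) (hU : 0 < U) (hr : 0 < r)
    (hK : (n : ℝ) / r ≤ K) (hW : (2 * M + 1) * (n : ℝ) / r ≤ W) (hWU : 10 * W ≤ U)
    {x y : ℤ × ℤ} (hx : x ∈ grid U) (gx : Good n U q (2 * r) x) (gy : Good n U q (2 * r) y)
    (d1 : |x.1 - y.1| ≤ M) (d2 : |x.2 - y.2| ≤ M)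
    (far : 2 * (K : ℤ) < |x.1 - y.1| ∨ 2 * (K : ℤ) < |x.2 - y.2|) :
    ∃ F ∈ triFaces (regularPolygon n), F.Nonempty ∧ F ⊆ box U W x := by
  have hU' : (0 : ℝ) < U := by exact_mod_cast hU
  have hn' : (0 : ℝ) < n := by
    have : 0 < n := by omega
    exact_mod_cast this
  have hr' : (0 : ℝ) < r := by exact_mod_cast hr
  obtain ⟨e, he, f, hf, g, hg, hef, hfg, heg⟩ := gx
  obtain ⟨e', he', f', hf', g', hg', hef', hfg', heg'⟩ := gy
  unfold nearSet at he hf hg he' hf' hg'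
  rw [Finset.mem_filter] at he hf hg he' hf' hg'
  have d1' : |(x.1 : ℝ) - y.1| ≤ M := by
    have : ((|x.1 - y.1| : ℤ) : ℝ) ≤ ((M : ℤ) : ℝ) := by exact_mod_cast d1
    push_cast at this; exact this
  have d2' : |(x.2 : ℝ) - y.2| ≤ M := by
    have : ((|x.2 - y.2| : ℤ) : ℝ) ≤ ((M : ℤ) : ℝ) := by exact_mod_cast d2
    push_cast at this; exact this
  have hMpos : (0 : ℝ) ≤ M := by positivity
  -- all chords are near x with constant ω = 2M+1
  have wx : ∀ a, Near n U a x → |Le n a (pt U x)| ≤ (2 * M + 1) / (2 * U) := by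
    intro a ha
    refine le_trans ha ?_
    rw [div_le_div_iff_of_pos_right (by positivity)]
    linarith
  have wy : ∀ a, Near n U a y → |Le n a (pt U x)| ≤ (2 * M + 1) / (2 * U) := by
    intro a ha
    have h1 := Le_diff n U hU a x y d1' d2'
    have h2 : |Le n a (pt U y)| ≤ 1 / (2 * U) := ha
    have h3 : (2 * (M : ℝ) + 1) / (2 * U) = 1 / (2 * U) + 2 * M / (2 * U) := by ring
    rw [h3]; linarith
  by_cases hc : ∃ p, Le n e p = 0 ∧ Le n f p = 0 ∧ Le n g p = 0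
  swap
  · exact face_near hn hq hU hr hx hW hWU he.1 hf.1 hg.1 (by omega) (by omega) (by omega)
      (wx _ he.2) (wx _ hf.2) (wx _ hg.2) hc
  by_cases hc' : ∃ p, Le n e' p = 0 ∧ Le n f' p = 0 ∧ Le n g' p = 0
  swap
  · exact face_near hn hq hU hr hx hW hWU he'.1 hf'.1 hg'.1 (by omega) (by omega) (by omega)
      (wy _ he'.2) (wy _ hf'.2) (wy _ hg'.2) hc'
  obtain ⟨p, pe, pf, pg⟩ := hc
  obtain ⟨p', pe', pf', pg'⟩ := hc'
  have me := he.1
  have mf := hf.1
  have mg := hg.1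
  have me' := he'.1
  have mf' := hf'.1
  simp only [fam, Finset.mem_product, Finset.mem_range] at me mf mg me' mf'
  -- the concurrency points are different
  have hpp : p ≠ p' := by
    rintro rfl
    obtain ⟨a1, a2⟩ := dist_cross hn hq me.1.le me.2.le mf.1.le mf.2.le hr (by omega) he.2 hf.2 pe pf
    obtain ⟨b1, b2⟩ := dist_cross hn hq me'.1.le me'.2.le mf'.1.le mf'.2.le hr (by omega)
      he'.2 hf'.2 pe' pf'
    have hle : 1 / (2 * (U : ℝ)) * n / r ≤ K / (2 * U) := by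
      have : 1 / (2 * (U : ℝ)) * n / r = (n / r) / (2 * U) := by field_simp
      rw [this, div_le_div_iff_of_pos_right (by positivity)]
      exact hK
    have key : ∀ s t w : ℝ, |s / (2 * U) - w| ≤ 1 / (2 * (U : ℝ)) * n / r →
        |t / (2 * U) - w| ≤ 1 / (2 * (U : ℝ)) * n / r → |s - t| ≤ 2 * K := by
      intro s t w h1 h2
      have h3 : |s / (2 * U) - t / (2 * U)| ≤ 2 * (K / (2 * U)) := by
        have h4 := abs_sub_le (s / (2 * U)) w (t / (2 * U))
        rw [abs_sub_comm w] at h4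
        linarith
      rw [← sub_div, abs_div, abs_of_pos (by positivity : (0 : ℝ) < 2 * U),
        div_le_iff₀ (by positivity)] at h3
      have h5 : 2 * ((K : ℝ) / (2 * U)) * (2 * U) = 2 * K := by field_simp
      linarith
    have f1 := key _ _ _ a1 b1
    have f2 := key _ _ _ a2 b2
    rcases far with h | h
    · have : ((2 * (K : ℤ) : ℤ) : ℝ) < ((|x.1 - y.1| : ℤ) : ℝ) := by exact_mod_cast h
      push_cast at this
      linarith
    · have : ((2 * (K : ℤ) : ℤ) : ℝ) < ((|x.2 - y.2| : ℤ) : ℝ) := by exact_mod_cast h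
      push_cast at this
      linarith
  -- a chord near y not through p
  obtain ⟨m, hm, hmp⟩ : ∃ m, (m ∈ fam q ∧ Near n U m y) ∧ Le n m p ≠ 0 := by
    by_cases h1 : Le n e' p = 0
    · by_cases h2 : Le n f' p = 0
      · exact absurd (cross_unique hn hq me'.1.le me'.2.le mf'.1.le mf'.2.le (by omega) h1 h2 pe' pf') hpp
      · exact ⟨f', hf', h2⟩
    · exact ⟨e', he', h1⟩
  -- the main construction
  have build : ∀ a b, (a ∈ fam q ∧ Near n U a x) → (b ∈ fam q ∧ Near n U b x) → Le n a p = 0 →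
      Le n b p = 0 → 2 * r ≤ dd a b → r ≤ dd a m → r ≤ dd b m →
      ∃ F ∈ triFaces (regularPolygon n), F.Nonempty ∧ F ⊆ box U W x := by
    intro a b ha hb pa pb h1 h2 h3
    refine face_near hn hq hU hr hx hW hWU ha.1 hb.1 hm.1 (by omega) h3 h2
      (wx _ ha.2) (wx _ hb.2) (wy _ hm.2) ?_
    rintro ⟨z, z1, z2, z3⟩
    have ma := ha.1
    have mb := hb.1
    simp only [fam, Finset.mem_product, Finset.mem_range] at ma mb
    have := cross_unique hn hq ma.1.le ma.2.le mb.1.le mb.2.le (by omega) z1 z2 pa pb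
    rw [this] at z3
    exact hmp z3
  by_cases c1 : r ≤ dd e m
  · by_cases c2 : r ≤ dd f m
    · exact build e f he hf pe pf hef c1 c2
    · have c3 : r ≤ dd g m := by
        have := dd_triangle f m g
        rw [dd_comm m g] at this
        omega
      exact build e g he hg pe pg heg c1 c3
  · have c2 : r ≤ dd f m := by
      have := dd_triangle e m f
      rw [dd_comm m f] at this
      omega
    have c3 : r ≤ dd g m := by
      have := dd_triangle e m g
      rw [dd_comm m g] at this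
      omega
    exact build f g hf hg pf pg hfg c2 c3

end Pool.Agent.H44.Tri
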