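import Pool.Agent.H44.Tri.Geom
import Pool.Agent.H58.Tri.U1

/-!
# The number of triangular faces of the regular drawing is of order `n ^ 4`
-/

set_option autoImplicit false

namespace Pool.Agent.H44.Tri

open Pool.H47.Tri Real

open Classical in
/-- many good points -/
theorem many_good {n B r : ℕ} (hB : 24000 ≤ B) (hn : 200 ≤ n) (hq : 16 * (B * r) ≤ n)
    (hn2 : n ≤ 17 * (B * r)) (hU : 5 * n < 2 * (B * r ^ 2)) (hU7 : 7 ≤ B * r ^ 2) :
    ((B * r ^ 2 : ℕ) : ℝ) ^ 2 ≤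
      614 * (((grid (B * r ^ 2)).filter (Good n (B * r ^ 2) (B * r) (2 * r))).card : ℝ) := by
  obtain ⟨q, hqd⟩ : ∃ q, q = B * r := ⟨_, rfl⟩
  obtain ⟨U, hUd⟩ : ∃ U, U = B * r ^ 2 := ⟨_, rfl⟩
  rw [← hqd] at hq hn2 ⊢
  rw [← hUd] at hU hU7 ⊢
  have hB' : (24000 : ℝ) ≤ B := by exact_mod_cast hB
  have hB0 : (0 : ℝ) < B := by linarith
  have hU' : (7 : ℝ) ≤ U := by exact_mod_cast hU7
  have hqU : (q : ℝ) ^ 2 = B * U := by rw [hqd, hUd]; push_cast; ring
  have hqr : (q : ℝ) * r = U := by rw [hqd, hUd]; push_cast; ring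
  have hnq : (n : ℝ) ≤ 17 * q := by exact_mod_cast hn2
  have hn0 : (0 : ℝ) ≤ n := by positivity
  have hr0 : (0 : ℝ) ≤ r := by positivity
  have hq0 : (0 : ℝ) ≤ q := by positivity
  -- the three sums
  have s1 := sum_near (n := n) (q := q) (U := U) hn hq hU7
  have s2 := sum_SS (n := n) (q := q) (U := U) hn hq hU (2 * (2 * r))
  have s3 := sum_SS (n := n) (q := q) (U := U) hn hq hU (2 * q)
  have s4 : ((grid U).card : ℝ) ≤ 9 * (U : ℝ) ^ 2 := by
    unfold grid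
    rw [Finset.card_product, Int.card_Icc]
    have : ((U : ℤ) + 1 - -(U : ℤ)).toNat = 2 * U + 1 := by omega
    rw [this]
    push_cast
    nlinarith
  have b2 : (q : ℝ) ^ 2 * (9 * U + 18 * n * ((2 * (2 * r) : ℕ) : ℝ)) ≤ 1233 * B * U ^ 2 := by
    rw [hqU]
    have h1 : (n : ℝ) * r ≤ 17 * U := by
      calc (n : ℝ) * r ≤ 17 * q * r := mul_le_mul_of_nonneg_right hnq hr0
        _ = 17 * U := by rw [mul_assoc, hqr]
    have h2 : 9 * (U : ℝ) + 18 * n * ((2 * (2 * r) : ℕ) : ℝ) ≤ 1233 * U := by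
      push_cast
      nlinarith
    have h3 : 0 ≤ (B : ℝ) * U := by positivity
    calc (B : ℝ) * U * (9 * U + 18 * n * ((2 * (2 * r) : ℕ) : ℝ)) ≤ (B : ℝ) * U * (1233 * U) :=
          mul_le_mul_of_nonneg_left h2 h3
      _ = 1233 * B * U ^ 2 := by ring
  have b3 : (q : ℝ) ^ 2 * (9 * U + 18 * n * ((2 * q : ℕ) : ℝ)) ≤ 613 * B ^ 2 * U ^ 2 := by
    rw [hqU]
    have h1 : (n : ℝ) * q ≤ 17 * (B * U) := by
      calc (n : ℝ) * q ≤ 17 * q * q := mul_le_mul_of_nonneg_right hnq hq0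
        _ = 17 * (B * U) := by rw [← hqU]; ring
    have h2 : 9 * (U : ℝ) + 18 * n * ((2 * q : ℕ) : ℝ) ≤ 613 * (B * U) := by
      push_cast
      nlinarith
    have h3 : 0 ≤ (B : ℝ) * U := by positivity
    calc (B : ℝ) * U * (9 * U + 18 * n * ((2 * q : ℕ) : ℝ)) ≤ (B : ℝ) * U * (613 * (B * U)) :=
          mul_le_mul_of_nonneg_left h2 h3
      _ = 613 * B ^ 2 * U ^ 2 := by ring
  have b1 : 2 * (B : ℝ) * U ^ 2 ≤ ∑ x ∈ grid U, ((nearSet n U q x).card : ℝ) := by
    refine le_trans (le_of_eq ?_) s1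
    rw [hqU]; ring
  -- pointwise inequality
  obtain ⟨lam, hlam⟩ : ∃ lam : ℝ, lam = B / 18 := ⟨_, rfl⟩
  obtain ⟨kap, hkap⟩ : ∃ kap : ℝ, kap = 307 * B := ⟨_, rfl⟩
  have hlam0 : 0 < lam := by rw [hlam]; positivity
  have hkap0 : 0 < kap := by rw [hkap]; positivity
  have hpt : ∀ x ∈ grid U, ((nearSet n U q x).card : ℝ) ≤
      lam + (SS n U q (2 * (2 * r)) x : ℝ) * (1 / (2 * lam)) +
      (if Good n U q (2 * r) x then kap else 0) + (SS n U q (2 * q) x : ℝ) * (1 / (4 * kap)) := by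
    intro x _
    obtain ⟨N, hN⟩ : ∃ N : ℝ, N = ((nearSet n U q x).card : ℝ) := ⟨_, rfl⟩
    have hsq : N ^ 2 = (SS n U q (2 * q) x : ℝ) := by
      rw [hN]; exact_mod_cast sq_eq_SS (n := n) (U := U) (q := q) (x := x)
    have amgm : ∀ t : ℝ, 0 < t → N ≤ t + N ^ 2 * (1 / (4 * t)) := by
      intro t ht
      have h1 : N * (4 * t) ≤ 4 * t * t + N ^ 2 := by nlinarith [sq_nonneg (N - 2 * t)]
      have h2 : N ≤ (4 * t * t + N ^ 2) / (4 * t) := by
        rw [le_div_iff₀ (by positivity)]; exact h1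
      have h3 : (4 * t * t + N ^ 2) / (4 * t) = t + N ^ 2 * (1 / (4 * t)) := by field_simp
      rw [← h3]; exact h2
    rw [← hN, ← hsq]
    have p1 : 0 ≤ (SS n U q (2 * (2 * r)) x : ℝ) * (1 / (2 * lam)) := by positivity
    have p2 : 0 ≤ N ^ 2 * (1 / (4 * kap)) := by positivity
    by_cases hg : Good n U q (2 * r) x
    · rw [if_pos hg]
      have := amgm kap hkap0
      linarith
    · rw [if_neg hg]
      have h1 := amgm lam hlam0
      have h2 : N ^ 2 ≤ 2 * (SS n U q (2 * (2 * r)) x : ℝ) := by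
        rw [hN]; exact_mod_cast bad_sq hg
      have h3 : N ^ 2 * (1 / (4 * lam)) ≤ 2 * (SS n U q (2 * (2 * r)) x : ℝ) * (1 / (4 * lam)) :=
        mul_le_mul_of_nonneg_right h2 (by positivity)
      have h4 : 2 * (SS n U q (2 * (2 * r)) x : ℝ) * (1 / (4 * lam)) =
          (SS n U q (2 * (2 * r)) x : ℝ) * (1 / (2 * lam)) := by field_simp; ring
      linarith
  have hsum := Finset.sum_le_sum hpt
  rw [Finset.sum_add_distrib, Finset.sum_add_distrib, Finset.sum_add_distrib, ← Finset.sum_mul,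
    ← Finset.sum_mul, Finset.sum_const, nsmul_eq_mul] at hsum
  have hgood : ∑ x ∈ grid U, (if Good n U q (2 * r) x then kap else 0) =
      (((grid U).filter (Good n U q (2 * r))).card : ℝ) * kap := by
    rw [← Finset.sum_filter, Finset.sum_const, nsmul_eq_mul]
  rw [hgood] at hsum
  obtain ⟨G, hG⟩ : ∃ G : ℝ, G = (((grid U).filter (Good n U q (2 * r))).card : ℝ) := ⟨_, rfl⟩
  rw [← hG] at hsum ⊢
  have c1 : ((grid U).card : ℝ) * lam ≤ B * U ^ 2 / 2 := by
    calc ((grid U).card : ℝ) * lam ≤ 9 * (U : ℝ) ^ 2 * lam :=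
          mul_le_mul_of_nonneg_right s4 hlam0.le
      _ = B * U ^ 2 / 2 := by rw [hlam]; ring
  have c2 : (∑ x ∈ grid U, (SS n U q (2 * (2 * r)) x : ℝ)) * (1 / (2 * lam)) ≤ B * U ^ 2 / 2 := by
    calc (∑ x ∈ grid U, (SS n U q (2 * (2 * r)) x : ℝ)) * (1 / (2 * lam)) ≤
        (1233 * B * U ^ 2) * (1 / (2 * lam)) :=
          mul_le_mul_of_nonneg_right (s2.trans b2) (by positivity)
      _ = 11097 * U ^ 2 := by rw [hlam]; field_simp; ring
      _ ≤ B * U ^ 2 / 2 := by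
        have : 0 ≤ (U : ℝ) ^ 2 := by positivity
        nlinarith
  have c3 : (∑ x ∈ grid U, (SS n U q (2 * q) x : ℝ)) * (1 / (4 * kap)) ≤ B * U ^ 2 / 2 := by
    calc (∑ x ∈ grid U, (SS n U q (2 * q) x : ℝ)) * (1 / (4 * kap)) ≤
        (613 * B ^ 2 * U ^ 2) * (1 / (4 * kap)) :=
          mul_le_mul_of_nonneg_right (s3.trans b3) (by positivity)
      _ = 613 / 1228 * (B * U ^ 2) := by rw [hkap]; field_simp; ring
      _ ≤ B * U ^ 2 / 2 := by
        have : 0 ≤ (B : ℝ) * (U : ℝ) ^ 2 := by positivity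
        nlinarith
  have c4 : B * (U : ℝ) ^ 2 / 2 ≤ G * (307 * B) := by
    rw [← hkap]
    linarith only [hsum, b1, c1, c2, c3]
  have c5 : (B : ℝ) * U ^ 2 ≤ B * (614 * G) := by linarith only [c4]
  exact le_of_mul_le_mul_left c5 hB0

open Classical in
/-- sparse sets have few elements -/
theorem sparse_card {U M K : ℕ} (hM : 0 < M) {NR : Finset (ℤ × ℤ)} (hsub : NR ⊆ grid U)
    (h : ∀ x ∈ NR, ∀ y ∈ NR, |x.1 - y.1| ≤ M → |x.2 - y.2| ≤ M →
      |x.1 - y.1| ≤ K ∧ |x.2 - y.2| ≤ K) :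
    NR.card ≤ (2 * K + 1) ^ 2 * (2 * (U / M) + 2) ^ 2 := by
  have hM' : (0 : ℤ) < M := by exact_mod_cast hM
  have h1 : NR.card ≤ (2 * K + 1) ^ 2 *
      (NR.image (fun x : ℤ × ℤ => ((x.1 / M, x.2 / M) : ℤ × ℤ))).card := by
    apply Finset.card_le_mul_card_image
    intro b hb
    rcases (NR.filter (fun x => (x.1 / (M : ℤ), x.2 / (M : ℤ)) = b)).eq_empty_or_nonempty with
      hemp | ⟨x0, hx0⟩
    · rw [hemp]; simp
    · rw [Finset.mem_filter] at hx0
      have hs : NR.filter (fun x => (x.1 / (M : ℤ), x.2 / (M : ℤ)) = b) ⊆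
          Finset.Icc (x0.1 - K) (x0.1 + K) ×ˢ Finset.Icc (x0.2 - K) (x0.2 + K) := by
        intro x hx
        rw [Finset.mem_filter] at hx
        have he := hx.2.trans hx0.2.symm
        simp only [Prod.mk.injEq] at he
        have q1 := Int.emod_add_mul_ediv x.1 M
        have q2 := Int.emod_add_mul_ediv x0.1 M
        have q3 := Int.emod_add_mul_ediv x.2 M
        have q4 := Int.emod_add_mul_ediv x0.2 M
        have r1 := Int.emod_nonneg x.1 hM'.ne'
        have r2 := Int.emod_nonneg x0.1 hM'.ne'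
        have r3 := Int.emod_nonneg x.2 hM'.ne'
        have r4 := Int.emod_nonneg x0.2 hM'.ne'
        have t1 := Int.emod_lt_of_pos x.1 hM'
        have t2 := Int.emod_lt_of_pos x0.1 hM'
        have t3 := Int.emod_lt_of_pos x.2 hM'
        have t4 := Int.emod_lt_of_pos x0.2 hM'
        rw [he.1] at q1
        rw [he.2] at q3
        have hd := h x hx.1 x0 hx0.1 (by rw [abs_le]; constructor <;> linarith)
          (by rw [abs_le]; constructor <;> linarith)
        rw [abs_le, abs_le] at hd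
        rw [Finset.mem_product, Finset.mem_Icc, Finset.mem_Icc]
        exact ⟨⟨by linarith [hd.1.1], by linarith [hd.1.2]⟩,
          ⟨by linarith [hd.2.1], by linarith [hd.2.2]⟩⟩
      refine (Finset.card_le_card hs).trans ?_
      rw [Finset.card_product, Int.card_Icc, Int.card_Icc]
      have e1 : (x0.1 + (K : ℤ) + 1 - (x0.1 - K)).toNat = 2 * K + 1 := by omega
      have e2 : (x0.2 + (K : ℤ) + 1 - (x0.2 - K)).toNat = 2 * K + 1 := by omega
      rw [e1, e2, sq]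
  have h2 : (NR.image (fun x : ℤ × ℤ => ((x.1 / M, x.2 / M) : ℤ × ℤ))).card ≤
      (2 * (U / M) + 2) ^ 2 := by
    have hs : NR.image (fun x : ℤ × ℤ => ((x.1 / M, x.2 / M) : ℤ × ℤ)) ⊆
        Finset.Icc (-((U / M : ℕ) : ℤ) - 1) ((U / M : ℕ) : ℤ) ×ˢ
          Finset.Icc (-((U / M : ℕ) : ℤ) - 1) ((U / M : ℕ) : ℤ) := by
      intro b hb
      rw [Finset.mem_image] at hb
      obtain ⟨x, hx, rfl⟩ := hb
      have hg := hsub hx
      simp only [grid, Finset.mem_product, Finset.mem_Icc] at hg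
      have key : ∀ t : ℤ, -(U : ℤ) ≤ t → t ≤ U → -((U / M : ℕ) : ℤ) - 1 ≤ t / M ∧
          t / M ≤ ((U / M : ℕ) : ℤ) := by
        intro t h1 h2
        constructor
        · rw [Int.le_ediv_iff_mul_le hM']
          have h3 := Nat.lt_div_mul_add (a := U) hM
          have h4 : (U : ℤ) < ((U / M : ℕ) : ℤ) * M + M := by exact_mod_cast h3
          linarith
        · have h3 : ((U / M : ℕ) : ℤ) = (U : ℤ) / M := by push_cast; rfl
          rw [h3]
          exact Int.ediv_le_ediv hM' h2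
      rw [Finset.mem_product, Finset.mem_Icc, Finset.mem_Icc]
      exact ⟨key _ hg.1.1 hg.1.2, key _ hg.2.1 hg.2.2⟩
    refine (Finset.card_le_card hs).trans ?_
    rw [Finset.card_product, Int.card_Icc]
    have e1 : (((U / M : ℕ) : ℤ) + 1 - (-((U / M : ℕ) : ℤ) - 1)).toNat = 2 * (U / M) + 2 := by omega
    rw [e1, sq]
  exact h1.trans (Nat.mul_le_mul_left _ h2)

end Pool.Agent.H44.Tri
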