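import Pool.Agent.H44.Tri.Reg

/-!
# Chords near a grid point: analytic estimates
-/

set_option autoImplicit false

namespace Pool.Agent.H44.Tri

open Pool.H47.Tri Real

/-- the chord `(a, n/2 + b)` in normal form -/
noncomputable def Le (n : ℕ) (e : ℕ × ℕ) (y : Pt) : ℝ := L n (e.1 : ℝ) ((n / 2 + e.2 : ℕ) : ℝ) y

/-- the angle of the normal -/
noncomputable def mm (n : ℕ) (e : ℕ × ℕ) : ℝ := π * ((e.1 : ℝ) + ((n / 2 + e.2 : ℕ) : ℝ)) / n

/-- the half angle of the chord -/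
noncomputable def ph (n : ℕ) (e : ℕ × ℕ) : ℝ := π * (((n / 2 + e.2 : ℕ) : ℝ) - (e.1 : ℝ)) / n

theorem Le_eq (n : ℕ) (e : ℕ × ℕ) (y : Pt) :
    Le n e y = y.1 * cos (mm n e) + y.2 * sin (mm n e) - cos (ph n e) := rfl

theorem half_bounds (n : ℕ) : (n : ℝ) / 2 - 1 / 2 ≤ ((n / 2 : ℕ) : ℝ) ∧ ((n / 2 : ℕ) : ℝ) ≤ (n : ℝ) / 2 := by
  have h1 : 2 * (n / 2) ≤ n := by omega
  have h2 : n ≤ 2 * (n / 2) + 1 := by omega
  have h3 : (2 * ((n / 2 : ℕ) : ℝ)) ≤ n := by exact_mod_cast h1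
  have h4 : (n : ℝ) ≤ 2 * ((n / 2 : ℕ) : ℝ) + 1 := by exact_mod_cast h2
  constructor <;> linarith

theorem mm_bounds {n q : ℕ} (hn : 200 ≤ n) (hq : 16 * q ≤ n) {e : ℕ × ℕ} (h1 : e.1 ≤ q)
    (h2 : e.2 ≤ q) : |mm n e - π / 2| ≤ 2 / 5 := by
  have hn' : (200 : ℝ) ≤ n := by exact_mod_cast hn
  have hq' : 16 * (q : ℝ) ≤ n := by exact_mod_cast hq
  have h1' : (e.1 : ℝ) ≤ q := by exact_mod_cast h1
  have h2' : (e.2 : ℝ) ≤ q := by exact_mod_cast h2
  have h3 : (0 : ℝ) ≤ (e.1 : ℝ) := by positivity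
  have h4 : (0 : ℝ) ≤ (e.2 : ℝ) := by positivity
  obtain ⟨b1, b2⟩ := half_bounds n
  have hn0 : (0 : ℝ) < n := by linarith
  have e1 : mm n e - π / 2 = π * (((e.1 : ℝ) + e.2 + (((n / 2 : ℕ) : ℝ) - n / 2)) / n) := by
    unfold mm; push_cast; field_simp; ring
  rw [e1, abs_mul, abs_of_pos pi_pos]
  have h5 : |((e.1 : ℝ) + e.2 + (((n / 2 : ℕ) : ℝ) - n / 2)) / n| ≤ 1 / 8 := by
    rw [abs_div, abs_of_pos hn0, div_le_iff₀ hn0, abs_le]
    constructor <;> linarith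
  have h6 := pi_lt_d2
  have h7 := pi_pos
  nlinarith

theorem ph_bounds' {n q : ℕ} (hn : 200 ≤ n) (hq : 16 * q ≤ n) {a b : ℝ} (ha0 : 0 ≤ a)
    (hb0 : 0 ≤ b) (h1 : a ≤ q) (h2 : b ≤ q) :
    |π * (((n / 2 : ℕ) : ℝ) + b - a) / n - π / 2| ≤ 21 / 100 := by
  have hn' : (200 : ℝ) ≤ n := by exact_mod_cast hn
  have hq' : 16 * (q : ℝ) ≤ n := by exact_mod_cast hq
  obtain ⟨b1, b2⟩ := half_bounds n
  have hn0 : (0 : ℝ) < n := by linarith
  have e1 : π * (((n / 2 : ℕ) : ℝ) + b - a) / n - π / 2 =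
      π * ((b - a + (((n / 2 : ℕ) : ℝ) - n / 2)) / n) := by
    field_simp; ring
  rw [e1, abs_mul, abs_of_pos pi_pos]
  have h5 : |(b - a + (((n / 2 : ℕ) : ℝ) - n / 2)) / n| ≤ 1 / 16 + 1 / 400 := by
    rw [abs_div, abs_of_pos hn0, div_le_iff₀ hn0, abs_le]
    constructor <;> nlinarith
  have h6 := pi_lt_d2
  have h7 := pi_pos
  nlinarith

theorem ph_bounds {n q : ℕ} (hn : 200 ≤ n) (hq : 16 * q ≤ n) {e : ℕ × ℕ} (h1 : e.1 ≤ q)
    (h2 : e.2 ≤ q) : |ph n e - π / 2| ≤ 21 / 100 := by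
  have := ph_bounds' hn hq (a := e.1) (b := e.2) (by positivity) (by positivity)
    (by exact_mod_cast h1) (by exact_mod_cast h2)
  unfold ph
  push_cast
  exact this

theorem sin_of_near {t r : ℝ} (h : |t - π / 2| ≤ r) : 1 - r ^ 2 / 2 ≤ sin t := by
  have h1 : sin t = cos (t - π / 2) := by rw [cos_sub_pi_div_two]
  rw [h1]
  have h2 := one_sub_sq_div_two_le_cos (x := t - π / 2)
  have h3 : (t - π / 2) ^ 2 ≤ r ^ 2 := by
    rw [← sq_abs (t - π / 2)]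
    exact pow_le_pow_left₀ (abs_nonneg _) h 2
  linarith

theorem cos_of_near {t r : ℝ} (h : |t - π / 2| ≤ r) : |cos t| ≤ r := by
  have h1 : cos t = - sin (t - π / 2) := by rw [sin_sub_pi_div_two]; ring
  rw [h1, abs_neg]
  exact (abs_sin_le_abs).trans h

theorem sin_mm {n q : ℕ} (hn : 200 ≤ n) (hq : 16 * q ≤ n) {e : ℕ × ℕ} (h1 : e.1 ≤ q)
    (h2 : e.2 ≤ q) : 9 / 10 ≤ sin (mm n e) := by
  have := sin_of_near (mm_bounds hn hq h1 h2)
  linarith

theorem cos_mm {n q : ℕ} (hn : 200 ≤ n) (hq : 16 * q ≤ n) {e : ℕ × ℕ} (h1 : e.1 ≤ q)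
    (h2 : e.2 ≤ q) : |cos (mm n e)| ≤ 2 / 5 := cos_of_near (mm_bounds hn hq h1 h2)

theorem cos_ph {n q : ℕ} (hn : 200 ≤ n) (hq : 16 * q ≤ n) {e : ℕ × ℕ} (h1 : e.1 ≤ q)
    (h2 : e.2 ≤ q) : |cos (ph n e)| ≤ 21 / 100 := cos_of_near (ph_bounds hn hq h1 h2)

/-- `sin (π t / (2 n)) ≥ t / n` -/
theorem sin_half_ge {n : ℕ} {t : ℝ} (hn : 0 < n) (h0 : 0 ≤ t) (h1 : t ≤ n) :
    t / n ≤ sin (π * t / (2 * n)) := by
  have hn' : (0 : ℝ) < n := by exact_mod_cast hn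
  have h2 : 0 ≤ π * t / (2 * n) := by positivity
  have h3 : π * t / (2 * n) ≤ π / 2 := by
    rw [div_le_div_iff₀ (by positivity) (by norm_num)]
    nlinarith [pi_pos, mul_le_mul_of_nonneg_left h1 pi_pos.le]
  have h4 := mul_le_sin h2 h3
  have h5 : 2 / π * (π * t / (2 * n)) = t / n := by
    field_simp
  rw [h5] at h4
  exact h4

theorem small_lin {y : Pt} (h1 : |y.1| ≤ 1 / 2) (h2 : |y.2| ≤ 1 / 2) (m : ℝ) :
    |y.1 * cos m + y.2 * sin m| ≤ 71 / 100 := by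
  apply abs_lin_le (by norm_num)
  have h3 : y.1 ^ 2 ≤ (1 / 2) ^ 2 := by
    rw [← sq_abs]; exact pow_le_pow_left₀ (abs_nonneg _) h1 2
  have h4 : y.2 ^ 2 ≤ (1 / 2) ^ 2 := by
    rw [← sq_abs]; exact pow_le_pow_left₀ (abs_nonneg _) h2 2
  linarith

theorem mono_fst {n q : ℕ} (hn : 200 ≤ n) (hq : 16 * q ≤ n) {a c b : ℕ} (hac : a ≤ c) (hc : c ≤ q)
    (hb : b ≤ q) {y : Pt} (h1 : |y.1| ≤ 1 / 2) (h2 : |y.2| ≤ 1 / 2) :
    2 / 5 * ((c : ℝ) - a) / n ≤ Le n (a, b) y - Le n (c, b) y := by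
  have hn0 : 0 < n := by omega
  have hn' : (0 : ℝ) < n := by exact_mod_cast hn0
  have hac' : (a : ℝ) ≤ c := by exact_mod_cast hac
  have hcq : (c : ℝ) ≤ q := by exact_mod_cast hc
  have hbq : (b : ℝ) ≤ q := by exact_mod_cast hb
  have hqn : 16 * (q : ℝ) ≤ n := by exact_mod_cast hq
  have ha0 : (0 : ℝ) ≤ a := by positivity
  have hb0 : (0 : ℝ) ≤ b := by positivity
  have hq0 : (0 : ℝ) ≤ q := by positivity
  obtain ⟨H, hH⟩ : ∃ H : ℝ, H = π * ((c : ℝ) - a) / (2 * n) := ⟨_, rfl⟩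
  obtain ⟨M, hM⟩ : ∃ M : ℝ, M = mm n (a, b) + H := ⟨_, rfl⟩
  obtain ⟨F, hF⟩ : ∃ F : ℝ, F = ph n (a, b) - H := ⟨_, rfl⟩
  have e1 : mm n (a, b) = M - H := by rw [hM]; ring
  have e2 : mm n (c, b) = M + H := by
    rw [hM, hH]; unfold mm; push_cast; field_simp; ring
  have e3 : ph n (a, b) = F + H := by rw [hF]; ring
  have e4 : ph n (c, b) = F - H := by
    rw [hF, hH]; unfold ph; push_cast; field_simp; ring
  have key : Le n (a, b) y - Le n (c, b) y =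
      2 * sin H * (sin F - (y.1 * cos (M + π / 2) + y.2 * sin (M + π / 2))) + 4 * sin H * 0 := by
    rw [Le_eq, Le_eq, e1, e2, e3, e4, cos_add_pi_div_two, sin_add_pi_div_two, cos_sub, cos_add,
      sin_sub, sin_add, cos_add, cos_sub]
    ring
  have hsH : ((c : ℝ) - a) / n ≤ sin H := by
    rw [hH]; exact sin_half_ge hn0 (by linarith) (by linarith)
  have hsF : 95 / 100 ≤ sin F := by
    have h3 := ph_bounds' hn hq (a := ((a : ℝ) + c) / 2) (b := b) (by positivity) hb0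
      (by linarith) hbq
    have e5 : π * (((n / 2 : ℕ) : ℝ) + b - ((a : ℝ) + c) / 2) / n = F := by
      rw [hF, hH]; unfold ph; push_cast; field_simp; ring
    rw [e5] at h3
    have := sin_of_near h3
    linarith
  have hl := abs_le.1 (small_lin h1 h2 (M + π / 2))
  have hfin : 24 / 100 ≤ sin F - (y.1 * cos (M + π / 2) + y.2 * sin (M + π / 2)) := by
    linarith [hl.2]
  rw [key]
  have h6 : 0 ≤ ((c : ℝ) - a) / n := by apply div_nonneg <;> linarith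
  have h7 : 2 / 5 * ((c : ℝ) - a) / n = 2 / 5 * (((c : ℝ) - a) / n) := by ring
  rw [h7]
  have h8 : 0 ≤ sin H := h6.trans hsH
  have h9 : 24 / 100 * sin H ≤ sin H * (sin F - (y.1 * cos (M + π / 2) + y.2 * sin (M + π / 2))) := by
    rw [mul_comm (24 / 100)]
    exact mul_le_mul_of_nonneg_left hfin h8
  nlinarith

theorem mono_snd {n q : ℕ} (hn : 200 ≤ n) (hq : 16 * q ≤ n) {a b d : ℕ} (hbd : b ≤ d) (hd : d ≤ q)
    (ha : a ≤ q) {y : Pt} (h1 : |y.1| ≤ 1 / 2) (h2 : |y.2| ≤ 1 / 2) :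
    2 / 5 * ((d : ℝ) - b) / n ≤ Le n (a, d) y - Le n (a, b) y := by
  have hn0 : 0 < n := by omega
  have hn' : (0 : ℝ) < n := by exact_mod_cast hn0
  have hbd' : (b : ℝ) ≤ d := by exact_mod_cast hbd
  have hdq : (d : ℝ) ≤ q := by exact_mod_cast hd
  have haq : (a : ℝ) ≤ q := by exact_mod_cast ha
  have hqn : 16 * (q : ℝ) ≤ n := by exact_mod_cast hq
  have ha0 : (0 : ℝ) ≤ a := by positivity
  have hb0 : (0 : ℝ) ≤ b := by positivity
  have hq0 : (0 : ℝ) ≤ q := by positivity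
  obtain ⟨H, hH⟩ : ∃ H : ℝ, H = π * ((d : ℝ) - b) / (2 * n) := ⟨_, rfl⟩
  obtain ⟨M, hM⟩ : ∃ M : ℝ, M = mm n (a, b) + H := ⟨_, rfl⟩
  obtain ⟨F, hF⟩ : ∃ F : ℝ, F = ph n (a, b) + H := ⟨_, rfl⟩
  have e1 : mm n (a, b) = M - H := by rw [hM]; ring
  have e2 : mm n (a, d) = M + H := by
    rw [hM, hH]; unfold mm; push_cast; field_simp; ring
  have e3 : ph n (a, b) = F - H := by rw [hF]; ring
  have e4 : ph n (a, d) = F + H := by
    rw [hF, hH]; unfold ph; push_cast; field_simp; ring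
  have key : Le n (a, d) y - Le n (a, b) y =
      2 * sin H * (sin F + (y.1 * cos (M + π / 2) + y.2 * sin (M + π / 2))) + 4 * sin H * 0 := by
    rw [Le_eq, Le_eq, e1, e2, e3, e4, cos_add_pi_div_two, sin_add_pi_div_two, cos_sub, cos_add,
      sin_sub, sin_add, cos_add, cos_sub]
    ring
  have hsH : ((d : ℝ) - b) / n ≤ sin H := by
    rw [hH]; exact sin_half_ge hn0 (by linarith) (by linarith)
  have hsF : 95 / 100 ≤ sin F := by
    have h3 := ph_bounds' hn hq (a := a) (b := ((b : ℝ) + d) / 2) ha0 (by positivity)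
      haq (by linarith)
    have e5 : π * (((n / 2 : ℕ) : ℝ) + ((b : ℝ) + d) / 2 - a) / n = F := by
      rw [hF, hH]; unfold ph; push_cast; field_simp; ring
    rw [e5] at h3
    have := sin_of_near h3
    linarith
  have hl := abs_le.1 (small_lin h1 h2 (M + π / 2))
  have hfin : 24 / 100 ≤ sin F + (y.1 * cos (M + π / 2) + y.2 * sin (M + π / 2)) := by
    linarith [hl.1]
  rw [key]
  have h6 : 0 ≤ ((d : ℝ) - b) / n := by apply div_nonneg <;> linarith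
  have h7 : 2 / 5 * ((d : ℝ) - b) / n = 2 / 5 * (((d : ℝ) - b) / n) := by ring
  rw [h7]
  have h8 : 0 ≤ sin H := h6.trans hsH
  have h9 : 24 / 100 * sin H ≤ sin H * (sin F + (y.1 * cos (M + π / 2) + y.2 * sin (M + π / 2))) := by
    rw [mul_comm (24 / 100)]
    exact mul_le_mul_of_nonneg_left hfin h8
  nlinarith

/-- the point of the grid -/
noncomputable def pt (U : ℕ) (x : ℤ × ℤ) : Pt := ((x.1 : ℝ) / (2 * U), (x.2 : ℝ) / (2 * U))

/-- the grid -/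
noncomputable def grid (U : ℕ) : Finset (ℤ × ℤ) := Finset.Icc (-(U : ℤ)) U ×ˢ Finset.Icc (-(U : ℤ)) U

/-- the chord `e` passes near the grid point `x` -/
def Near (n U : ℕ) (e : ℕ × ℕ) (x : ℤ × ℤ) : Prop := |Le n e (pt U x)| ≤ 1 / (2 * U)

theorem pt_bound {U : ℕ} (hU : 0 < U) {x : ℤ × ℤ} (hx : x ∈ grid U) :
    |(pt U x).1| ≤ 1 / 2 ∧ |(pt U x).2| ≤ 1 / 2 := by
  have hU' : (0 : ℝ) < U := by exact_mod_cast hU
  simp only [grid, Finset.mem_product, Finset.mem_Icc] at hx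
  obtain ⟨⟨h1, h2⟩, h3, h4⟩ := hx
  have h1' : -(U : ℝ) ≤ x.1 := by exact_mod_cast h1
  have h2' : (x.1 : ℝ) ≤ U := by exact_mod_cast h2
  have h3' : -(U : ℝ) ≤ x.2 := by exact_mod_cast h3
  have h4' : (x.2 : ℝ) ≤ U := by exact_mod_cast h4
  unfold pt
  simp only
  constructor
  · rw [abs_div, abs_of_pos (by positivity : (0 : ℝ) < 2 * U), div_le_iff₀ (by positivity), abs_le]
    constructor <;> linarith
  · rw [abs_div, abs_of_pos (by positivity : (0 : ℝ) < 2 * U), div_le_iff₀ (by positivity), abs_le]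
    constructor <;> linarith

/-- two different chords near the same grid point have interleaving ends -/
theorem interleave {n q U : ℕ} (hn : 200 ≤ n) (hq : 16 * q ≤ n) (hU : 5 * n < 2 * U)
    {e f : ℕ × ℕ} (he1 : e.1 ≤ q) (he2 : e.2 ≤ q) (hf1 : f.1 ≤ q) (hf2 : f.2 ≤ q)
    {x : ℤ × ℤ} (hx : x ∈ grid U) (he : Near n U e x) (hf : Near n U f x) (hne : e ≠ f) :
    (e.1 < f.1 ∧ e.2 < f.2) ∨ (f.1 < e.1 ∧ f.2 < e.2) := by
  have hU0 : 0 < U := by omega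
  have hU' : (0 : ℝ) < U := by exact_mod_cast hU0
  have hn0 : 0 < n := by omega
  have hn' : (0 : ℝ) < n := by exact_mod_cast hn0
  have hUn : 5 * (n : ℝ) < 2 * U := by exact_mod_cast hU
  obtain ⟨p1, p2⟩ := pt_bound hU0 hx
  have hsmall : 1 / (2 * (U : ℝ)) + 1 / (2 * (U : ℝ)) < 2 / 5 * 1 / n := by
    have : 1 / (2 * (U : ℝ)) + 1 / (2 * (U : ℝ)) = 1 / U := by field_simp; norm_num
    rw [this, div_lt_div_iff₀ hU' hn']
    linarith
  unfold Near at he hf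
  have he' := abs_le.1 he
  have hf' := abs_le.1 hf
  -- the nested configuration is impossible
  have nest : ∀ a b c d : ℕ, a ≤ c → d ≤ b → c ≤ q → b ≤ q → (a, b) ≠ (c, d) →
      2 / 5 * 1 / n ≤ Le n (a, b) (pt U x) - Le n (c, d) (pt U x) := by
    intro a b c d hac hdb hc hb hne
    have m1 := mono_fst hn hq hac hc hb p1 p2
    have m2 := mono_snd hn hq hdb hb hc p1 p2
    have hac' : (a : ℝ) ≤ c := by exact_mod_cast hac
    have hdb' : (d : ℝ) ≤ b := by exact_mod_cast hdb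
    have hone : 1 ≤ ((c : ℝ) - a) + ((b : ℝ) - d) := by
      have : 1 + a + d ≤ c + b := by
        by_contra hcon
        apply hne
        have h1 : a = c := by omega
        have h2 : b = d := by omega
        rw [h1, h2]
      have : (1 : ℝ) + a + d ≤ c + b := by exact_mod_cast this
      linarith
    have h3 : 2 / 5 * 1 / (n : ℝ) ≤ 2 / 5 * ((c : ℝ) - a) / n + 2 / 5 * ((b : ℝ) - d) / n := by
      rw [← add_div, div_le_div_iff_of_pos_right hn']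
      linarith
    linarith
  by_contra hcon
  push Not at hcon
  obtain ⟨c1, c2⟩ := hcon
  rcases lt_trichotomy e.1 f.1 with h | h | h
  · have := nest e.1 e.2 f.1 f.2 h.le (c1 h) hf1 he2 hne
    linarith [he'.1, he'.2, hf'.1, hf'.2]
  · rcases le_total f.2 e.2 with h' | h'
    · have := nest e.1 e.2 f.1 f.2 h.le h' hf1 he2 hne
      linarith [he'.1, he'.2, hf'.1, hf'.2]
    · have := nest f.1 f.2 e.1 e.2 h.ge h' he1 hf2 hne.symm
      linarith [he'.1, he'.2, hf'.1, hf'.2]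
  · have := nest f.1 f.2 e.1 e.2 h.le (c2 h) he1 hf2 hne.symm
    linarith [he'.1, he'.2, hf'.1, hf'.2]

/-- the direction of a chord -/
noncomputable def dir (e : ℕ × ℕ) : ℤ := (e.1 : ℤ) + e.2

theorem det_eq (n : ℕ) (e f : ℕ × ℕ) :
    cos (mm n e) * sin (mm n f) - cos (mm n f) * sin (mm n e) =
      sin (π * ((dir f : ℝ) - dir e) / n) := by
  have h : π * ((dir f : ℝ) - dir e) / n = mm n f - mm n e := by
    unfold mm dir; push_cast; ring
  rw [h, sin_sub]; ring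

theorem abs_det_ge {n q : ℕ} (hn : 200 ≤ n) (hq : 16 * q ≤ n) {e f : ℕ × ℕ} (he1 : e.1 ≤ q)
    (he2 : e.2 ≤ q) (hf1 : f.1 ≤ q) (hf2 : f.2 ≤ q) :
    2 * |(dir f : ℝ) - dir e| / n ≤
      |cos (mm n e) * sin (mm n f) - cos (mm n f) * sin (mm n e)| := by
  have hn0 : 0 < n := by omega
  have hn' : (0 : ℝ) < n := by exact_mod_cast hn0
  have hq' : 16 * (q : ℝ) ≤ n := by exact_mod_cast hq
  rw [det_eq]
  have h1 : |(dir f : ℝ) - dir e| ≤ 2 * q := by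
    have a1 : (e.1 : ℝ) ≤ q := by exact_mod_cast he1
    have a2 : (e.2 : ℝ) ≤ q := by exact_mod_cast he2
    have a3 : (f.1 : ℝ) ≤ q := by exact_mod_cast hf1
    have a4 : (f.2 : ℝ) ≤ q := by exact_mod_cast hf2
    have b1 : (0 : ℝ) ≤ e.1 := by positivity
    have b2 : (0 : ℝ) ≤ e.2 := by positivity
    have b3 : (0 : ℝ) ≤ f.1 := by positivity
    have b4 : (0 : ℝ) ≤ f.2 := by positivity
    unfold dir
    push_cast
    rw [abs_le]
    constructor <;> linarith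
  have h2 : |sin (π * ((dir f : ℝ) - dir e) / n)| = sin (π * |(dir f : ℝ) - dir e| / n) := by
    have h3 : π * |(dir f : ℝ) - dir e| / n = |π * ((dir f : ℝ) - dir e) / n| := by
      rw [abs_div, abs_mul, abs_of_pos pi_pos, abs_of_pos hn']
    rw [h3]
    have h4 : |π * ((dir f : ℝ) - dir e) / n| ≤ π := by
      rw [← h3, div_le_iff₀ hn']
      apply mul_le_mul_of_nonneg_left _ pi_pos.le
      linarith
    rw [abs_sin_eq_sin_abs_of_abs_le_pi h4]
  rw [h2]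
  have h5 := sin_half_ge (n := n) (t := 2 * |(dir f : ℝ) - dir e|) hn0 (by positivity)
    (by linarith)
  have h6 : π * (2 * |(dir f : ℝ) - dir e|) / (2 * n) = π * |(dir f : ℝ) - dir e| / n := by
    field_simp
  rw [h6] at h5
  exact h5

end Pool.Agent.H44.Tri
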