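import Pool.Agent.H44.Tri.Free

/-!
# The regular drawing
-/

set_option autoImplicit false

namespace Pool.Agent.H44.Tri

open Pool.H47.Tri Real

/-- the vertices of a regular `n`-gon inscribed in the unit circle -/
noncomputable def regularPolygon (n : ℕ) : Fin n → ℝ × ℝ := fun k =>
  (Real.cos (2 * Real.pi * (k : ℕ) / n), Real.sin (2 * Real.pi * (k : ℕ) / n))

/-- normal form of the line through the vertices `i` and `j` -/
noncomputable def L (n : ℕ) (i j : ℝ) (y : Pt) : ℝ :=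
  y.1 * cos (π * (i + j) / n) + y.2 * sin (π * (i + j) / n) - cos (π * (j - i) / n)

theorem orient_trig (a b : ℝ) (y : Pt) :
    orient (cos (2 * a), sin (2 * a)) (cos (2 * b), sin (2 * b)) y =
      -2 * sin (b - a) * (y.1 * cos (a + b) + y.2 * sin (a + b) - cos (b - a)) := by
  have h1 : cos (2 * b) - cos (2 * a) = -2 * sin (a + b) * sin (b - a) := by
    rw [cos_sub_cos]
    have e1 : (2 * b + 2 * a) / 2 = a + b := by ring
    have e2 : (2 * b - 2 * a) / 2 = b - a := by ring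
    rw [e1, e2]
  have h2 : sin (2 * b) - sin (2 * a) = 2 * sin (b - a) * cos (a + b) := by
    rw [sin_sub_sin]
    have e1 : (2 * b + 2 * a) / 2 = a + b := by ring
    have e2 : (2 * b - 2 * a) / 2 = b - a := by ring
    rw [e1, e2]
  have h3 : cos (a + b) * cos (2 * a) + sin (a + b) * sin (2 * a) = cos (b - a) := by
    rw [← cos_sub]; congr 1; ring
  simp only [orient]
  rw [h1, h2, ← h3]
  ring

theorem orient_reg {n : ℕ} (i j : Fin n) (y : Pt) :
    orient (regularPolygon n i) (regularPolygon n j) y =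
      -2 * sin (π * ((j : ℕ) - (i : ℕ)) / n) * L n (i : ℕ) (j : ℕ) y := by
  have h := orient_trig (π * (i : ℕ) / n) (π * (j : ℕ) / n) y
  unfold regularPolygon L
  have e1 : 2 * (π * ((i : ℕ) : ℝ) / n) = 2 * π * (i : ℕ) / n := by ring
  have e2 : 2 * (π * ((j : ℕ) : ℝ) / n) = 2 * π * (j : ℕ) / n := by ring
  have e3 : π * ((j : ℕ) : ℝ) / n - π * (i : ℕ) / n = π * ((j : ℕ) - (i : ℕ)) / n := by ring
  have e4 : π * ((i : ℕ) : ℝ) / n + π * (j : ℕ) / n = π * ((i : ℕ) + (j : ℕ)) / n := by ring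
  rw [e1, e2, e3, e4] at h
  exact h

theorem ccw_reg (n : ℕ) : Ccw (regularPolygon n) := by
  intro i j k hij hjk
  have hn : 0 < n := by have := i.isLt; omega
  have hn' : (0 : ℝ) < n := by exact_mod_cast hn
  rw [orient_reg]
  unfold L regularPolygon
  simp only
  have e0 : cos (2 * π * (k : ℕ) / n) * cos (π * ((i : ℕ) + (j : ℕ)) / n) +
      sin (2 * π * (k : ℕ) / n) * sin (π * ((i : ℕ) + (j : ℕ)) / n) =
      cos (2 * π * (k : ℕ) / n - π * ((i : ℕ) + (j : ℕ)) / n) := (cos_sub _ _).symm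
  have e1 : cos (2 * π * (k : ℕ) / n - π * ((i : ℕ) + (j : ℕ)) / n) - cos (π * ((j : ℕ) - (i : ℕ)) / n) =
      -2 * sin (π * ((k : ℕ) - (i : ℕ)) / n) * sin (π * ((k : ℕ) - (j : ℕ)) / n) := by
    rw [cos_sub_cos]
    congr 2
    · ring_nf
    · ring_nf
  have e2 : cos (2 * π * (k : ℕ) / n) * cos (π * ((i : ℕ) + (j : ℕ)) / n) +
      sin (2 * π * (k : ℕ) / n) * sin (π * ((i : ℕ) + (j : ℕ)) / n) - cos (π * ((j : ℕ) - (i : ℕ)) / n) =
      -2 * sin (π * ((k : ℕ) - (i : ℕ)) / n) * sin (π * ((k : ℕ) - (j : ℕ)) / n) := by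
    rw [e0, e1]
  rw [e2]
  have hpos : ∀ a b : Fin n, a < b → 0 < sin (π * ((b : ℕ) - (a : ℕ)) / n) := by
    intro a b hab
    have h1 : (a : ℕ) < (b : ℕ) := hab
    have h2 : ((a : ℕ) : ℝ) < ((b : ℕ) : ℝ) := by exact_mod_cast h1
    have h3 : ((b : ℕ) : ℝ) < n := by exact_mod_cast b.isLt
    have h4 : (0 : ℝ) ≤ ((a : ℕ) : ℝ) := by positivity
    apply sin_pos_of_pos_of_lt_pi
    · apply div_pos _ hn'
      apply mul_pos pi_pos; linarith
    · rw [div_lt_iff₀ hn']
      apply mul_lt_mul_of_pos_left _ pi_pos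
      linarith
  have p1 := hpos i j hij
  have p2 := hpos j k hjk
  have p3 := hpos i k (hij.trans hjk)
  have : -2 * sin (π * ((j : ℕ) - (i : ℕ)) / n) * (-2 * sin (π * ((k : ℕ) - (i : ℕ)) / n) * sin (π * ((k : ℕ) - (j : ℕ)) / n)) =
      4 * (sin (π * ((j : ℕ) - (i : ℕ)) / n) * sin (π * ((k : ℕ) - (i : ℕ)) / n) * sin (π * ((k : ℕ) - (j : ℕ)) / n)) := by ring
  rw [this]
  positivity

theorem abs_lin_le {y : Pt} {r : ℝ} (hr : 0 ≤ r) (hy : y.1 ^ 2 + y.2 ^ 2 ≤ r ^ 2) (m : ℝ) :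
    |y.1 * cos m + y.2 * sin m| ≤ r := by
  apply abs_le_of_sq_le_sq _ hr
  have h := sin_sq_add_cos_sq m
  nlinarith [sq_nonneg (y.1 * sin m - y.2 * cos m)]

theorem cos_pi_div_gt {n : ℕ} (hn : 8 ≤ n) : (9 / 10 : ℝ) < cos (π / n) := by
  have hn' : (8 : ℝ) ≤ n := by exact_mod_cast hn
  have h1 := one_sub_sq_div_two_le_cos (x := π / n)
  have h2 : π / n ≤ 2 / 5 := by
    rw [div_le_iff₀ (by linarith)]
    have := pi_lt_d2
    nlinarith
  have h3 : 0 ≤ π / n := by positivity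
  nlinarith

theorem inside_reg {n : ℕ} (hn : 8 ≤ n) {y : Pt} (hy : y.1 ^ 2 + y.2 ^ 2 ≤ (9 / 10) ^ 2) :
    y ∈ inside (regularPolygon n) := by
  rw [mem_inside]
  intro i j hij
  have hn' : (8 : ℝ) ≤ n := by exact_mod_cast hn
  have hn0 : (n : ℝ) ≠ 0 := by positivity
  have hP := ccw_reg n
  have hcos := cos_pi_div_gt hn
  rw [orient_reg]
  have habs := abs_le.1 (abs_lin_le (by norm_num) hy (π * ((i : ℕ) + (j : ℕ)) / n))
  have hsin1 : 0 < sin (π / n) := by
    apply sin_pos_of_pos_of_lt_pi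
    · positivity
    · rw [div_lt_iff₀ (by linarith)]
      nlinarith [pi_pos]
  rcases lt_or_gt_of_ne hij.1 with hlt | hgt
  · -- i < j : then j = i + 1
    have hj : (j : ℕ) = i + 1 := by
      by_contra hne
      have h1 : (i : ℕ) < j := hlt
      have h2 : (i : ℕ) + 1 < j := by omega
      have hk : (⟨(i : ℕ) + 1, by have := j.isLt; omega⟩ : Fin n) < j := by
        rw [Fin.lt_def]; exact h2
      have hk' : i < (⟨(i : ℕ) + 1, by have := j.isLt; omega⟩ : Fin n) := by
        rw [Fin.lt_def]; simp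
      have h3 := hP _ _ _ hk' hk
      have h4 := hij.2 _ hk'.ne' hk.ne
      rw [orient_swap'] at h4
      linarith
    have e1 : π * (((j : ℕ) : ℝ) - (i : ℕ)) / n = π / n := by
      rw [hj]; push_cast; ring
    rw [e1]
    unfold L
    rw [e1]
    nlinarith [habs.2]
  · -- j < i : then j = 0 and i = n - 1
    have h1 : (j : ℕ) < i := hgt
    have hj : (j : ℕ) = 0 := by
      by_contra hne
      have hk : (⟨0, by omega⟩ : Fin n) < j := by rw [Fin.lt_def]; simp; omega
      have h3 := hP _ _ _ hk hgt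
      have h4 := hij.2 _ (hk.trans hgt).ne hk.ne
      rw [orient_cyc, orient_cyc, orient_swap'] at h4
      linarith
    have hi : (i : ℕ) = n - 1 := by
      by_contra hne
      have hk : i < (⟨n - 1, by omega⟩ : Fin n) := by
        rw [Fin.lt_def]; simp; have := i.isLt; omega
      have h3 := hP _ _ _ hgt hk
      have h4 := hij.2 _ hk.ne' (hgt.trans hk).ne'
      rw [orient_swap] at h4
      linarith
    have e1 : π * (((j : ℕ) : ℝ) - (i : ℕ)) / n = π / n - π := by
      rw [hj, hi]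
      rw [Nat.cast_sub (by omega)]
      push_cast
      field_simp
      ring
    rw [e1]
    unfold L
    rw [e1]
    have e2 : sin (π / n - π) = - sin (π / n) := by
      rw [sin_sub_pi]
    have e3 : cos (π / n - π) = - cos (π / n) := by
      rw [cos_sub_pi]
    rw [e2, e3]
    nlinarith [habs.1]

end Pool.Agent.H44.Tri
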