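import Pool.Agent.H44.Tri.Count

/-!
# The second moment
-/

set_option autoImplicit false

namespace Pool.Agent.H44.Tri

open Pool.H47.Tri Real

/-- the family of chords used -/
def fam (q : ℕ) : Finset (ℕ × ℕ) := Finset.range q ×ˢ Finset.range q

/-- interleaving -/
def Inter (e f : ℕ × ℕ) : Prop := (e.1 < f.1 ∧ e.2 < f.2) ∨ (f.1 < e.1 ∧ f.2 < e.2)

/-- direction distance -/
def dd (e f : ℕ × ℕ) : ℕ := (((f.1 : ℤ) + f.2) - ((e.1 : ℤ) + e.2)).natAbs

theorem dd_cast (e f : ℕ × ℕ) : ((dd e f : ℕ) : ℝ) = |(dir f : ℝ) - dir e| := by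
  unfold dd dir
  rw [Nat.cast_natAbs]
  push_cast
  rfl

open Classical in
theorem fiber_card (q : ℕ) (e : ℕ × ℕ) (h : ℕ) :
    ((fam q).filter (fun f => Inter e f ∧ dd e f = h)).card ≤ 2 * h := by
  have hsub : (fam q).filter (fun f => Inter e f ∧ dd e f = h) ⊆
      (Finset.range h).image (fun a => (e.1 + a, e.2 + (h - a))) ∪
        (Finset.range h).image (fun a => (e.1 - a, e.2 - (h - a))) := by
    intro f hf
    rw [Finset.mem_filter] at hf
    obtain ⟨-, hI, hd⟩ := hf
    rw [Finset.mem_union, Finset.mem_image, Finset.mem_image]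
    unfold dd at hd
    rcases hI with ⟨h1, h2⟩ | ⟨h1, h2⟩
    · left
      refine ⟨f.1 - e.1, ?_, ?_⟩
      · rw [Finset.mem_range]; omega
      · apply Prod.ext
        · simp only; omega
        · simp only; omega
    · right
      refine ⟨e.1 - f.1, ?_, ?_⟩
      · rw [Finset.mem_range]; omega
      · apply Prod.ext
        · simp only; omega
        · simp only; omega
  refine (Finset.card_le_card hsub).trans ((Finset.card_union_le _ _).trans ?_)
  have h1 := Finset.card_image_le (s := Finset.range h) (f := fun a => (e.1 + a, e.2 + (h - a)))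
  have h2 := Finset.card_image_le (s := Finset.range h) (f := fun a => (e.1 - a, e.2 - (h - a)))
  rw [Finset.card_range] at h1 h2
  omega

open Classical in
theorem sum_inter (n q : ℕ) (e : ℕ × ℕ) (H : ℕ) :
    ∑ f ∈ (fam q).filter (fun f => Inter e f ∧ dd e f < H), (9 * (n : ℝ) / dd e f) ≤ 18 * n * H := by
  have hmaps : ∀ f ∈ (fam q).filter (fun f => Inter e f ∧ dd e f < H), dd e f ∈ Finset.range H := by
    intro f hf
    exact Finset.mem_range.2 (Finset.mem_filter.1 hf).2.2
  rw [← Finset.sum_fiberwise_of_maps_to hmaps]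
  have hle : ∀ h ∈ Finset.range H, ∑ f ∈ ((fam q).filter (fun f => Inter e f ∧ dd e f < H)).filter
      (fun f => dd e f = h), (9 * (n : ℝ) / dd e f) ≤ 18 * n := by
    intro h _
    have h1 : ∑ f ∈ ((fam q).filter (fun f => Inter e f ∧ dd e f < H)).filter
        (fun f => dd e f = h), (9 * (n : ℝ) / dd e f) ≤
        ∑ f ∈ ((fam q).filter (fun f => Inter e f ∧ dd e f < H)).filter
        (fun f => dd e f = h), (9 * (n : ℝ) / h) := by
      apply Finset.sum_le_sum
      intro f hf
      rw [(Finset.mem_filter.1 hf).2]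
    refine h1.trans ?_
    rw [Finset.sum_const, nsmul_eq_mul]
    have h2 : (((fam q).filter (fun f => Inter e f ∧ dd e f < H)).filter
        (fun f => dd e f = h)).card ≤ 2 * h := by
      refine le_trans (Finset.card_le_card ?_) (fiber_card q e h)
      intro f hf
      rw [Finset.mem_filter, Finset.mem_filter] at hf
      rw [Finset.mem_filter]
      exact ⟨hf.1.1, hf.1.2.1, hf.2⟩
    have h3 : (((((fam q).filter (fun f => Inter e f ∧ dd e f < H)).filter
        (fun f => dd e f = h)).card : ℕ) : ℝ) ≤ 2 * h := by exact_mod_cast h2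
    rcases Nat.eq_zero_or_pos h with h0 | h0
    · subst h0
      simp only [Nat.cast_zero, div_zero, mul_zero]
      positivity
    · have h0' : (0 : ℝ) < h := by exact_mod_cast h0
      calc _ ≤ (2 * (h : ℝ)) * (9 * n / h) := by
            apply mul_le_mul_of_nonneg_right h3; positivity
        _ = 18 * n := by field_simp; ring
  refine (Finset.sum_le_sum hle).trans ?_
  rw [Finset.sum_const, Finset.card_range, nsmul_eq_mul]
  linarith [mul_comm (H : ℝ) (18 * (n : ℝ))]

open Classical in
/-- the number of pairs of chords near `x` with direction distance `< H` -/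
noncomputable def SS (n U q H : ℕ) (x : ℤ × ℤ) : ℕ :=
  ((fam q ×ˢ fam q).filter (fun p => dd p.1 p.2 < H ∧ Near n U p.1 x ∧ Near n U p.2 x)).card

open Classical in
/-- the chords near `x` -/
noncomputable def nearSet (n U q : ℕ) (x : ℤ × ℤ) : Finset (ℕ × ℕ) :=
  (fam q).filter (fun e => Near n U e x)

open Classical in
theorem sum_SS {n q U : ℕ} (hn : 200 ≤ n) (hq : 16 * q ≤ n) (hU : 5 * n < 2 * U) (H : ℕ) :
    ∑ x ∈ grid U, (SS n U q H x : ℝ) ≤ (q : ℝ) ^ 2 * (9 * U + 18 * n * H) := by
  have hU0 : 0 < U := by omega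
  -- double counting
  have h1 : ∑ x ∈ grid U, (SS n U q H x : ℝ) =
      ∑ p ∈ (fam q ×ˢ fam q).filter (fun p => dd p.1 p.2 < H),
        ((((grid U).filter (fun x => Near n U p.1 x ∧ Near n U p.2 x)).card : ℕ) : ℝ) := by
    have := Finset.sum_card_bipartiteAbove_eq_sum_card_bipartiteBelow
      (s := grid U) (t := (fam q ×ˢ fam q).filter (fun p => dd p.1 p.2 < H))
      (r := fun x p => Near n U p.1 x ∧ Near n U p.2 x)
    have h2 : ∑ x ∈ grid U, SS n U q H x =
        ∑ p ∈ (fam q ×ˢ fam q).filter (fun p => dd p.1 p.2 < H),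
          ((grid U).filter (fun x => Near n U p.1 x ∧ Near n U p.2 x)).card := by
      unfold SS
      simp only [Finset.bipartiteAbove, Finset.bipartiteBelow] at this
      rw [← this]
      apply Finset.sum_congr rfl
      intro x _
      rw [Finset.filter_filter]
    exact_mod_cast h2
  rw [h1, Finset.sum_filter, Finset.sum_product]
  -- the inner sum
  have h2 : ∀ e ∈ fam q, ∑ f ∈ fam q, (if dd e f < H then
      ((((grid U).filter (fun x => Near n U e x ∧ Near n U f x)).card : ℕ) : ℝ) else 0) ≤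
      9 * U + 18 * n * H := by
    intro e he
    simp only [fam, Finset.mem_product, Finset.mem_range] at he
    have hpt : ∀ f ∈ fam q, (if dd e f < H then
        ((((grid U).filter (fun x => Near n U e x ∧ Near n U f x)).card : ℕ) : ℝ) else 0) ≤
        (if e = f then (9 * U : ℝ) else 0) +
          (if Inter e f ∧ dd e f < H then 9 * (n : ℝ) / dd e f else 0) := by
      intro f hf
      simp only [fam, Finset.mem_product, Finset.mem_range] at hf
      by_cases hd : dd e f < H
      · rw [if_pos hd]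
        by_cases hef : e = f
        · rw [if_pos hef]
          have h3 : ((grid U).filter (fun x => Near n U e x ∧ Near n U f x)).card ≤ 9 * U := by
            refine le_trans (Finset.card_le_card ?_) (count1 hn hq hU0 he.1.le he.2.le)
            intro x hx
            rw [Finset.mem_filter] at hx
            exact Finset.mem_filter.2 ⟨hx.1, hx.2.1⟩
          have h4 : ((((grid U).filter (fun x => Near n U e x ∧ Near n U f x)).card : ℕ) : ℝ) ≤
              9 * U := by exact_mod_cast h3
          have h5 : (0 : ℝ) ≤ (if Inter e f ∧ dd e f < H then 9 * (n : ℝ) / dd e f else 0) := by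
            split_ifs <;> positivity
          linarith
        · rw [if_neg hef]
          by_cases hI : Inter e f
          · rw [if_pos ⟨hI, hd⟩]
            have hdir : dir e ≠ dir f := by
              unfold dir
              rcases hI with ⟨i1, i2⟩ | ⟨i1, i2⟩ <;> omega
            have := count2 hn hq hU0 he.1.le he.2.le hf.1.le hf.2.le hdir
            rw [dd_cast]
            linarith
          · rw [if_neg (fun h => hI h.1)]
            have h3 : (grid U).filter (fun x => Near n U e x ∧ Near n U f x) = ∅ := by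
              rw [Finset.filter_eq_empty_iff]
              rintro x hx ⟨n1, n2⟩
              exact hI (interleave hn hq hU he.1.le he.2.le hf.1.le hf.2.le hx n1 n2 hef)
            rw [h3]
            simp
      · rw [if_neg hd]
        have h5 : (0 : ℝ) ≤ (if Inter e f ∧ dd e f < H then 9 * (n : ℝ) / dd e f else 0) := by
          split_ifs <;> positivity
        have h6 : (0 : ℝ) ≤ (if e = f then (9 * U : ℝ) else 0) := by
          split_ifs <;> positivity
        linarith
    refine (Finset.sum_le_sum hpt).trans ?_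
    rw [Finset.sum_add_distrib]
    have h7 : ∑ f ∈ fam q, (if e = f then (9 * U : ℝ) else 0) ≤ 9 * U := by
      rw [Finset.sum_ite_eq]
      split_ifs
      · exact le_rfl
      · positivity
    have h8 := sum_inter n q e H
    rw [Finset.sum_filter] at h8
    linarith
  refine (Finset.sum_le_sum h2).trans ?_
  rw [Finset.sum_const, nsmul_eq_mul]
  have h9 : (((fam q).card : ℕ) : ℝ) = (q : ℝ) ^ 2 := by
    unfold fam
    rw [Finset.card_product, Finset.card_range]
    push_cast; ring
  rw [h9]

open Classical in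
theorem sum_near {n q U : ℕ} (hn : 200 ≤ n) (hq : 16 * q ≤ n) (hU : 7 ≤ U) :
    (q : ℝ) ^ 2 * (2 * U) ≤ ∑ x ∈ grid U, ((nearSet n U q x).card : ℝ) := by
  have h1 : ∑ x ∈ grid U, (nearSet n U q x).card = ∑ e ∈ fam q, (nearPts n U e).card := by
    have := Finset.sum_card_bipartiteAbove_eq_sum_card_bipartiteBelow
      (s := grid U) (t := fam q) (r := fun x e => Near n U e x)
    simp only [Finset.bipartiteAbove, Finset.bipartiteBelow] at this
    exact this
  have h2 : (fam q).card • (2 * U) ≤ ∑ e ∈ fam q, (nearPts n U e).card := by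
    apply Finset.card_nsmul_le_sum
    intro e he
    simp only [fam, Finset.mem_product, Finset.mem_range] at he
    exact count_low hn hq hU he.1.le he.2.le
  rw [← h1] at h2
  have h3 : (fam q).card = q ^ 2 := by
    unfold fam
    rw [Finset.card_product, Finset.card_range]
    ring
  rw [h3, smul_eq_mul] at h2
  exact_mod_cast h2

/-- `x` has three chords with well separated directions -/
def Good (n U q H : ℕ) (x : ℤ × ℤ) : Prop :=
  ∃ e ∈ nearSet n U q x, ∃ f ∈ nearSet n U q x, ∃ g ∈ nearSet n U q x,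
    H ≤ dd e f ∧ H ≤ dd f g ∧ H ≤ dd e g

theorem dd_comm (e f : ℕ × ℕ) : dd e f = dd f e := by unfold dd; omega

theorem dd_triangle (e f g : ℕ × ℕ) : dd e g ≤ dd e f + dd f g := by unfold dd; omega

open Classical in
theorem bad_sq {n U q H : ℕ} {x : ℤ × ℤ} (hb : ¬ Good n U q H x) :
    (nearSet n U q x).card ^ 2 ≤ 2 * SS n U q (2 * H) x := by
  obtain ⟨N, hN⟩ : ∃ N, N = nearSet n U q x := ⟨_, rfl⟩
  -- subsets of pairs
  have hpairs : ∀ X : Finset (ℕ × ℕ), X ⊆ N → (∀ e ∈ X, ∀ f ∈ X, dd e f < 2 * H) →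
      X ×ˢ X ⊆ (fam q ×ˢ fam q).filter
        (fun p => dd p.1 p.2 < 2 * H ∧ Near n U p.1 x ∧ Near n U p.2 x) := by
    intro X hX hd p hp
    rw [Finset.mem_product] at hp
    have h1 := hX hp.1
    have h2 := hX hp.2
    rw [hN, nearSet, Finset.mem_filter] at h1 h2
    rw [Finset.mem_filter, Finset.mem_product]
    exact ⟨⟨h1.1, h2.1⟩, hd _ hp.1 _ hp.2, h1.2, h2.2⟩
  rw [← hN]
  rcases N.eq_empty_or_nonempty with hemp | ⟨e, he⟩
  · rw [hemp]; simp
  obtain ⟨X, hX⟩ : ∃ X, X = N.filter (fun f => dd e f < H) := ⟨_, rfl⟩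
  obtain ⟨Y, hY⟩ : ∃ Y, Y = N.filter (fun f => ¬ dd e f < H) := ⟨_, rfl⟩
  have hcard : X.card + Y.card = N.card := by
    rw [hX, hY]; exact Finset.card_filter_add_card_filter_not (fun f => dd e f < H)
  have hXN : X ⊆ N := by rw [hX]; exact Finset.filter_subset _ _
  have hYN : Y ⊆ N := by rw [hY]; exact Finset.filter_subset _ _
  have hXd : ∀ a ∈ X, ∀ b ∈ X, dd a b < 2 * H := by
    intro a ha b hb
    rw [hX, Finset.mem_filter] at ha hb
    have := dd_triangle a e b
    rw [dd_comm a e] at this
    omega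
  have hYd : ∀ a ∈ Y, ∀ b ∈ Y, dd a b < 2 * H := by
    intro a ha b hb'
    rw [hY, Finset.mem_filter] at ha hb'
    by_contra hcon
    apply hb
    refine ⟨e, hN ▸ he, a, hN ▸ ha.1, b, hN ▸ hb'.1, by omega, by omega, by omega⟩
  have hdisj : Disjoint (X ×ˢ X) (Y ×ˢ Y) := by
    rw [Finset.disjoint_left]
    rintro p h1 h2
    rw [Finset.mem_product] at h1 h2
    have a1 := h1.1
    have a2 := h2.1
    rw [hX, Finset.mem_filter] at a1
    rw [hY, Finset.mem_filter] at a2
    exact a2.2 a1.2
  have hS : X.card ^ 2 + Y.card ^ 2 ≤ SS n U q (2 * H) x := by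
    unfold SS
    have h1 := Finset.card_le_card (Finset.union_subset (hpairs X hXN hXd) (hpairs Y hYN hYd))
    rw [Finset.card_union_of_disjoint hdisj, Finset.card_product, Finset.card_product] at h1
    nlinarith
  rw [← hcard]
  have h2 : (X.card + Y.card) ^ 2 ≤ 2 * (X.card ^ 2 + Y.card ^ 2) := by
    have : (((X.card : ℤ) + Y.card) ^ 2) ≤ 2 * ((X.card : ℤ) ^ 2 + (Y.card : ℤ) ^ 2) := by
      nlinarith [sq_nonneg ((X.card : ℤ) - Y.card)]
    exact_mod_cast this
  omega

open Classical in
theorem sq_eq_SS {n U q : ℕ} {x : ℤ × ℤ} :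
    (nearSet n U q x).card ^ 2 = SS n U q (2 * q) x := by
  unfold SS nearSet
  rw [sq, ← Finset.card_product]
  congr 1
  ext p
  simp only [Finset.mem_product, Finset.mem_filter, fam, Finset.mem_range]
  constructor
  · rintro ⟨⟨⟨h1, h2⟩, h3⟩, ⟨h4, h5⟩, h6⟩
    refine ⟨⟨⟨h1, h2⟩, h4, h5⟩, ?_, h3, h6⟩
    unfold dd; omega
  · rintro ⟨⟨⟨h1, h2⟩, h4, h5⟩, -, h3, h6⟩
    exact ⟨⟨⟨h1, h2⟩, h3⟩, ⟨h4, h5⟩, h6⟩

end Pool.Agent.H44.Tri
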